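import Pool.Agent.Lib.MP_060d7c_co.Defs

/-! # From integer points to a subset of the grid -/

set_option autoImplicit false

namespace Pool.Agent.Lib.MP_060d7c_co

open Finset

/-- squared distance of two integer points -/
def sqD {κ : Type} [Fintype κ] (z : ℕ → κ → ℤ) (s t : ℕ) : ℤ := ∑ k, (z s k - z t k) ^ 2

theorem sqD_symm {κ : Type} [Fintype κ] (z : ℕ → κ → ℤ) (s t : ℕ) : sqD z s t = sqD z t s :=
  Finset.sum_congr rfl fun k _ => by ring

theorem sqD_nonneg {κ : Type} [Fintype κ] (z : ℕ → κ → ℤ) (s t : ℕ) : 0 ≤ sqD z s t :=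
  Finset.sum_nonneg fun _ _ => sq_nonneg _

/-- the point as a vector -/
noncomputable def vec {κ : Type} (d : ℕ) (e : Fin d ≃ κ) (z : ℕ → κ → ℤ) (s : ℕ) :
    EuclideanSpace ℝ (Fin d) :=
  WithLp.toLp 2 (fun i : Fin d => ((z s (e i) : ℤ) : ℝ))

theorem dist_vec {κ : Type} [Fintype κ] (d : ℕ) (e : Fin d ≃ κ) (z : ℕ → κ → ℤ) (s t : ℕ) :
    dist (vec d e z s) (vec d e z t) = √((sqD z s t : ℤ) : ℝ) := by
  rw [EuclideanSpace.dist_eq]
  congr 1
  unfold sqD vec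
  rw [← Equiv.sum_comp e]
  push_cast
  refine Finset.sum_congr rfl fun i _ => ?_
  rw [Real.dist_eq, sq_abs]

theorem dist_vec_inj {κ : Type} [Fintype κ] (d : ℕ) (e : Fin d ≃ κ) (z : ℕ → κ → ℤ)
    (s t s' t' : ℕ) (h : dist (vec d e z s) (vec d e z t) = dist (vec d e z s') (vec d e z t')) :
    sqD z s t = sqD z s' t' := by
  rw [dist_vec, dist_vec, Real.sqrt_inj (by exact_mod_cast sqD_nonneg z s t)
    (by exact_mod_cast sqD_nonneg z s' t')] at h
  exact_mod_cast h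

/-- From integer points `z s ∈ {1, ..., m}^κ`, `s ∈ T`, to a subset of the grid. -/
theorem transfer {κ : Type} [Fintype κ] (d m : ℕ) (hd : Fintype.card κ = d) (T : Finset ℕ)
    (z : ℕ → κ → ℤ) (hz : ∀ s ∈ T, ∀ k, 1 ≤ z s k ∧ z s k ≤ m)
    (hpos : ∀ s ∈ T, ∀ s' ∈ T, s < s' → ∑ k, (z s k - z s' k) ^ 2 ≠ 0)
    (hD : ∀ s ∈ T, ∀ s' ∈ T, ∀ r ∈ T, ∀ r' ∈ T, s < s' → r < r' →
      ∑ k, (z s k - z s' k) ^ 2 = ∑ k, (z r k - z r' k) ^ 2 → s = r ∧ s' = r') :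
    ∃ S : Finset (EuclideanSpace ℝ (Fin d)), Good d m S ∧ S.card = T.card := by
  classical
  obtain ⟨e⟩ : Nonempty (Fin d ≃ κ) := ⟨(Fintype.equivFinOfCardEq hd).symm⟩
  have hinj : ∀ s ∈ T, ∀ t ∈ T, vec d e z s = vec d e z t → s = t := by
    intro s hs t ht h
    have h1 : dist (vec d e z s) (vec d e z t) = 0 := by rw [h, dist_self]
    rw [dist_vec, Real.sqrt_eq_zero (by exact_mod_cast sqD_nonneg z s t)] at h1
    have h2 : sqD z s t = 0 := by exact_mod_cast h1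
    rcases lt_trichotomy s t with h3 | h3 | h3
    · exact absurd h2 (hpos s hs t ht h3)
    · exact h3
    · rw [sqD_symm] at h2
      exact absurd h2 (hpos t ht s hs h3)
  refine ⟨T.image (vec d e z), ⟨?_, ?_⟩, Finset.card_image_of_injOn fun s hs t ht h =>
    hinj s hs t ht h⟩
  · intro x hx i
    obtain ⟨s, hs, rfl⟩ := Finset.mem_image.1 hx
    obtain ⟨h1, h2⟩ := hz s hs (e i)
    refine ⟨(z s (e i)).toNat, by omega, by omega, ?_⟩
    have h3 : (((z s (e i)).toNat : ℕ) : ℤ) = z s (e i) := Int.toNat_of_nonneg (by omega)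
    show ((z s (e i) : ℤ) : ℝ) = (((z s (e i)).toNat : ℕ) : ℝ)
    exact_mod_cast h3.symm
  · intro p hp q hq r hr w hw hpq hrw hdist
    obtain ⟨s, hs, rfl⟩ := Finset.mem_image.1 hp
    obtain ⟨s', hs', rfl⟩ := Finset.mem_image.1 hq
    obtain ⟨t, ht, rfl⟩ := Finset.mem_image.1 hr
    obtain ⟨t', ht', rfl⟩ := Finset.mem_image.1 hw
    have h0 := dist_vec_inj d e z s s' t t' hdist
    have hs0 : s ≠ s' := fun h => hpq (by rw [h])
    have ht0 : t ≠ t' := fun h => hrw (by rw [h])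
    rcases lt_or_gt_of_ne hs0 with h1 | h1 <;> rcases lt_or_gt_of_ne ht0 with h2 | h2
    · obtain ⟨a, b⟩ := hD s hs s' hs' t ht t' ht' h1 h2 h0
      left
      rw [a, b]
      exact ⟨rfl, rfl⟩
    · obtain ⟨a, b⟩ := hD s hs s' hs' t' ht' t ht h1 h2 (h0.trans (sqD_symm z t t'))
      right
      rw [a, b]
      exact ⟨rfl, rfl⟩
    · obtain ⟨a, b⟩ := hD s' hs' s hs t ht t' ht' h1 h2 ((sqD_symm z s' s).trans h0)
      right
      rw [a, b]
      exact ⟨rfl, rfl⟩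
    · obtain ⟨a, b⟩ := hD s' hs' s hs t' ht' t ht h1 h2
        ((sqD_symm z s' s).trans (h0.trans (sqD_symm z t t')))
      left
      rw [a, b]
      exact ⟨rfl, rfl⟩

end Pool.Agent.Lib.MP_060d7c_co
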