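import Pool.Agent.Lib.MP_060d7c_co.Select
import Pool.Agent.Lib.MP_060d7c_co.Transfer

/-! # The two-block construction from a second block `z` -/

set_option autoImplicit false

namespace Pool.Agent.Lib.MP_060d7c_co

open Finset

theorem intCast_eq_zero_of_lt {P : ℕ} {a : ℤ} (h : ((a : ℤ) : ZMod P) = 0) (h1 : |a| < P) :
    a = 0 :=
  Int.eq_zero_of_abs_lt_dvd ((ZMod.intCast_zmod_eq_zero_iff_dvd a P).1 h) h1

/-- Decoding: `(s' - s)²` and the second block determine `s, s'`. -/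
theorem decode {P : ℕ} [Fact P.Prime] (s s' r r' : ℕ) (hs : 4 * s < P) (hs' : 4 * s' < P)
    (hr : 4 * r < P) (hr' : 4 * r' < P) (h1 : s < s') (h2 : r < r') (q q' : ℤ)
    (hq : (q : ZMod P) = ((s : ZMod P) ^ 2 - (s' : ZMod P) ^ 2) ^ 2)
    (hq' : (q' : ZMod P) = ((r : ZMod P) ^ 2 - (r' : ZMod P) ^ 2) ^ 2)
    (h : ((s : ℤ) - s') ^ 2 + P * q = ((r : ℤ) - r') ^ 2 + P * q') : s = r ∧ s' = r' := by
  have hP0 : 0 < P := (Fact.out : P.Prime).pos
  have hPz : (P : ℤ) ≠ 0 := by exact_mod_cast hP0.ne'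
  have hPF : (P : ZMod P) = 0 := ZMod.natCast_self P
  have hd : (s' : ℤ) - s = r' - r := by
    have h3 : ((((s' : ℤ) - s - (r' - r)) : ℤ) : ZMod P) *
        ((((s' : ℤ) - s + (r' - r)) : ℤ) : ZMod P) = 0 := by
      have h4 := congrArg (fun z : ℤ => (z : ZMod P)) h
      push_cast at h4 ⊢
      rw [hPF] at h4
      linear_combination h4
    rcases mul_eq_zero.1 h3 with h4 | h4
    · have := intCast_eq_zero_of_lt h4 (by rw [abs_lt]; constructor <;> omega)
      omega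
    · have := intCast_eq_zero_of_lt h4 (by rw [abs_lt]; constructor <;> omega)
      omega
  have hqq : q = q' := by
    have h3 : (P : ℤ) * q = P * q' := by
      have h4 : ((s : ℤ) - s') ^ 2 = ((r : ℤ) - r') ^ 2 := by
        have : (s : ℤ) - s' = r - r' := by omega
        rw [this]
      linarith
    exact mul_left_cancel₀ hPz h3
  have hd' : (s' : ZMod P) - s = r' - r := by
    have := congrArg (fun z : ℤ => (z : ZMod P)) hd
    push_cast at this
    exact this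
  have h5 : ((s' : ZMod P) - s) ^ 2 *
      (((((s : ℤ) + s' - (r + r')) : ℤ) : ZMod P) * ((((s : ℤ) + s' + (r + r')) : ℤ) : ZMod P)) =
      0 := by
    rw [hqq, hq'] at hq
    have h6 : ((r : ZMod P) ^ 2 - (r' : ZMod P) ^ 2) ^ 2 =
        ((s' : ZMod P) - s) ^ 2 * (r + r') ^ 2 := by
      rw [hd']
      ring
    rw [h6] at hq
    push_cast
    linear_combination -hq
  rcases mul_eq_zero.1 h5 with h6 | h6
  · have h7 : ((((s' : ℤ) - s) : ℤ) : ZMod P) = 0 := by
      push_cast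
      exact pow_eq_zero_iff (two_ne_zero) |>.1 h6
    have := intCast_eq_zero_of_lt h7 (by rw [abs_lt]; constructor <;> omega)
    omega
  · rcases mul_eq_zero.1 h6 with h7 | h7
    · have := intCast_eq_zero_of_lt h7 (by rw [abs_lt]; constructor <;> omega)
      constructor <;> omega
    · have := intCast_eq_zero_of_lt h7 (by rw [abs_lt]; constructor <;> omega)
      omega

theorem block {P t : ℕ} [Fact P.Prime] (hP : P ≠ 2) {ι κ : Type} [Fintype κ] (E : Finset ι)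
    (x : ι → ZMod P) (α β : ι → Fin t → ZMod P)
    (inj : ∀ e ∈ E, ∀ e' ∈ E, x e = x e' → α e = α e' → β e = β e' → e = e')
    (z : ι → κ → ℤ) (B : ℕ) (hz : ∀ e ∈ E, ∀ k, |z e k| ≤ B)
    (hD : ∀ e ∈ E, ∀ e' ∈ E, ∃ q : ℤ, ∑ k, (z e k - z e' k) ^ 2 = P * q ∧
      (q : ZMod P) = Q (x e - x e') (α e - α e') (β e - β e'))
    (K : ℕ) (hE1 : E.card ≤ P ^ (t + 1)) (hE2 : P ^ (t + 1) ≤ K * E.card)
    (d m : ℕ) (hd : Fintype.card κ + 1 = d) (hm : 2 * B + 1 ≤ m) (hPm : P ≤ m) :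
    ∃ S : Finset (EuclideanSpace ℝ (Fin d)), Good d m S ∧ P ≤ 12 * K * S.card := by
  obtain ⟨T, w, hw, hT, hQ⟩ := select hP E x α β inj K hE1 hE2
  obtain ⟨Z, hZ⟩ : ∃ Z : ℕ → Option κ → ℤ, ∀ s, Z s none = (s : ℤ) + 1 ∧
      ∀ k, Z s (some k) = z (w s) k + B + 1 :=
    ⟨fun s o => o.elim ((s : ℤ) + 1) (fun k => z (w s) k + B + 1), fun s => ⟨rfl, fun _ => rfl⟩⟩
  have hsum : ∀ s s', ∑ k, (Z s k - Z s' k) ^ 2 =
      ((s : ℤ) - s') ^ 2 + ∑ k, (z (w s) k - z (w s') k) ^ 2 := by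
    intro s s'
    rw [Fintype.sum_option, (hZ s).1, (hZ s').1]
    congr 1
    · ring
    · refine Finset.sum_congr rfl fun k _ => ?_
      rw [(hZ s).2, (hZ s').2]
      ring
  suffices h : ∃ S : Finset (EuclideanSpace ℝ (Fin d)), Good d m S ∧ S.card = T.card by
    obtain ⟨S, hS, hcard⟩ := h
    exact ⟨S, hS, by rw [hcard]; exact hT⟩
  refine transfer (κ := Option κ) d m (by rw [Fintype.card_option, hd]) T Z ?_ ?_ ?_
  · intro s hs k
    obtain ⟨h1, h2⟩ := hw s hs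
    cases k with
    | none =>
      rw [(hZ s).1]
      constructor <;> omega
    | some k =>
      rw [(hZ s).2]
      have h3 := hz _ h1 k
      rw [abs_le] at h3
      constructor <;> omega
  · intro s _ s' _ hlt h0
    rw [hsum] at h0
    have h1 : 0 < ((s : ℤ) - s') ^ 2 := by
      have : (s : ℤ) - s' ≠ 0 := by omega
      positivity
    have h2 : 0 ≤ ∑ k, (z (w s) k - z (w s') k) ^ 2 := Finset.sum_nonneg fun _ _ => sq_nonneg _
    omega
  · intro s hs s' hs' r hr r' hr' h1 h2 h3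
    obtain ⟨q, hq1, hq2⟩ := hD _ (hw s hs).1 _ (hw s' hs').1
    obtain ⟨q', hq1', hq2'⟩ := hD _ (hw r hr).1 _ (hw r' hr').1
    rw [hsum, hsum, hq1, hq1'] at h3
    rw [hQ s hs s' hs'] at hq2
    rw [hQ r hr r' hr'] at hq2'
    exact decode s s' r r' (hw s hs).2 (hw s' hs').2 (hw r hr).2 (hw r' hr').2 h1 h2 q q' hq2 hq2' h3

end Pool.Agent.Lib.MP_060d7c_co
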