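import Pool.Agent.Lib.MP_060d7c_co.Defs

/-! # Counting the pairs `(c, M)` with `Y = 0` -/

set_option autoImplicit false

namespace Pool.Agent.Lib.MP_060d7c_co

open Finset

/-- If `β ≠ 0`, then `s = c·β` satisfies `α·β + 2xs - s² = 0` (two roots, each has `P^(t-1)` vectors
`c`), and for a given `c` and `β j₀ ≠ 0` the entries `M i j₀`, `i ≠ j₀`, are determined by the other
entries of `M`. If `β = 0` then `c` is determined (`x ≠ 0`) or there is no solution. -/
theorem count_Y {P t : ℕ} [Fact P.Prime] (hP : P ≠ 2) (x : ZMod P) (α β : Fin t → ZMod P)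
    (h : ¬ (x = 0 ∧ α = 0 ∧ β = 0)) :
    (Finset.univ.filter (fun e : (Fin t → ZMod P) × (Fin t → Fin t → ZMod P) =>
      ∀ i, Y e.1 e.2 x α β i = 0)).card ≤ 2 * P ^ (t * t) := by
  classical
  have hcard : Fintype.card (Fin t → Fin t → ZMod P) = P ^ (t * t) := by
    rw [Fintype.card_fun, Fintype.card_fun, ZMod.card, Fintype.card_fin, ← pow_mul]
  by_cases hβ : β = 0
  · subst hβ
    have hY : ∀ (c : Fin t → ZMod P) (M : Fin t → Fin t → ZMod P) (i : Fin t),
        Y c M x α 0 i = α i + 2 * x * c i := by
      intro c M i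
      simp [Y]
    by_cases hx : x = 0
    · have hα : α ≠ 0 := fun h' => h ⟨hx, h', rfl⟩
      have hemp : (Finset.univ.filter (fun e : (Fin t → ZMod P) × (Fin t → Fin t → ZMod P) =>
          ∀ i, Y e.1 e.2 x α 0 i = 0)) = ∅ := by
        rw [Finset.filter_eq_empty_iff]
        intro e _ he
        apply hα
        funext i
        have h1 := he i
        rw [hY, hx] at h1
        simpa using h1
      rw [hemp, Finset.card_empty]
      exact Nat.zero_le _
    · have h2 : (2 : ZMod P) ≠ 0 := by
        intro h0
        have h1 : ((2 : ℕ) : ZMod P) = 0 := by exact_mod_cast h0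
        rw [ZMod.natCast_eq_zero_iff] at h1
        exact hP ((Nat.prime_dvd_prime_iff_eq (Fact.out : P.Prime) Nat.prime_two).1 h1)
      have hle : (Finset.univ.filter (fun e : (Fin t → ZMod P) × (Fin t → Fin t → ZMod P) =>
          ∀ i, Y e.1 e.2 x α 0 i = 0)).card ≤
            (Finset.univ : Finset (Fin t → Fin t → ZMod P)).card := by
        refine Finset.card_le_card_of_injOn (fun e => e.2) (fun _ _ => Finset.mem_coe.2
          (Finset.mem_univ _)) ?_
        intro e he e' he' hee
        have h3 := (Finset.mem_filter.1 (Finset.mem_coe.1 he)).2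
        have h4 := (Finset.mem_filter.1 (Finset.mem_coe.1 he')).2
        refine Prod.ext ?_ hee
        funext i
        have h5 := h3 i
        have h6 := h4 i
        rw [hY] at h5 h6
        have h7 : 2 * x * (e.1 i - e'.1 i) = 0 := by linear_combination h5 - h6
        rcases mul_eq_zero.1 h7 with h8 | h8
        · rcases mul_eq_zero.1 h8 with h9 | h9
          · exact absurd h9 h2
          · exact absurd h9 hx
        · exact sub_eq_zero.1 h8
      rw [Finset.card_univ, hcard] at hle
      omega
  · obtain ⟨j₀, hj₀⟩ : ∃ j, β j ≠ 0 := by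
      by_contra hcon
      push Not at hcon
      exact hβ (funext hcon)
    set S := Finset.univ.filter (fun e : (Fin t → ZMod P) × (Fin t → Fin t → ZMod P) =>
      ∀ i, Y e.1 e.2 x α β i = 0) with hS
    rcases S.eq_empty_or_nonempty with hE | ⟨e₀, he₀⟩
    · rw [hE, Finset.card_empty]
      exact Nat.zero_le _
    have hQ : ∀ e ∈ S, Q x α β = X e.1 x β ^ 2 := by
      intro e he
      have h1 := (Finset.mem_filter.1 he).2
      rw [Q_eq e.1 e.2 x α β]
      have h2 : ∑ i, Y e.1 e.2 x α β i * β i = 0 :=
        Finset.sum_eq_zero fun i _ => by rw [h1 i, zero_mul]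
      rw [h2, add_zero]
    let r₀ : ZMod P := X e₀.1 x β
    let f : (Fin t → ZMod P) × (Fin t → Fin t → ZMod P) → Bool × (Fin t → Fin t → ZMod P) :=
      fun e => (decide (X e.1 x β = r₀), fun i j => if j = j₀ ∧ i ≠ j₀ then e.1 i else e.2 i j)
    have hle : S.card ≤ (Finset.univ : Finset (Bool × (Fin t → Fin t → ZMod P))).card := by
      refine Finset.card_le_card_of_injOn f (fun _ _ => Finset.mem_coe.2 (Finset.mem_univ _)) ?_
      intro e he e' he' hee
      have he1 := Finset.mem_coe.1 he
      have he1' := Finset.mem_coe.1 he'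
      have hb : decide (X e.1 x β = r₀) = decide (X e'.1 x β = r₀) := congrArg Prod.fst hee
      have hN : ∀ i j, (if j = j₀ ∧ i ≠ j₀ then e.1 i else e.2 i j) =
          (if j = j₀ ∧ i ≠ j₀ then e'.1 i else e'.2 i j) := fun i j =>
        congrFun (congrFun (congrArg Prod.snd hee) i) j
      have hr : ∀ e ∈ S, X e.1 x β = r₀ ∨ X e.1 x β = -r₀ := by
        intro e he
        have h1 := hQ e he
        have h2 := hQ e₀ he₀
        exact sq_eq_sq_iff_eq_or_eq_neg.1 (h1.symm.trans h2)
      have hX : X e.1 x β = X e'.1 x β := by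
        by_cases h1 : X e.1 x β = r₀
        · have h2 : X e'.1 x β = r₀ := by
            rw [decide_eq_true h1] at hb
            exact of_decide_eq_true hb.symm
          rw [h1, h2]
        · have h2 : ¬ X e'.1 x β = r₀ := by
            intro h3
            rw [decide_eq_true h3] at hb
            exact h1 (of_decide_eq_true hb)
          rcases hr e he1 with h3 | h3
          · exact absurd h3 h1
          · rcases hr e' he1' with h4 | h4
            · exact absurd h4 h2
            · rw [h3, h4]
      have hc : ∀ i, i ≠ j₀ → e.1 i = e'.1 i := by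
        intro i hi
        have h1 := hN i j₀
        rw [if_pos ⟨rfl, hi⟩, if_pos ⟨rfl, hi⟩] at h1
        exact h1
      have hM : ∀ i j, ¬ (j = j₀ ∧ i ≠ j₀) → e.2 i j = e'.2 i j := by
        intro i j hij
        have h1 := hN i j
        rw [if_neg hij, if_neg hij] at h1
        exact h1
      have hs : ∑ j, e.1 j * β j = ∑ j, e'.1 j * β j := by
        have h1 := hX
        unfold X at h1
        linear_combination -h1
      have hcj : e.1 j₀ = e'.1 j₀ := by
        rw [← Finset.add_sum_erase _ _ (Finset.mem_univ j₀),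
          ← Finset.add_sum_erase _ (fun j => e'.1 j * β j) (Finset.mem_univ j₀)] at hs
        have h1 : ∑ j ∈ Finset.univ.erase j₀, e.1 j * β j =
            ∑ j ∈ Finset.univ.erase j₀, e'.1 j * β j :=
          Finset.sum_congr rfl fun j hj => by rw [hc j (Finset.ne_of_mem_erase hj)]
        rw [h1] at hs
        have h2 : (e.1 j₀ - e'.1 j₀) * β j₀ = 0 := by linear_combination hs
        rcases mul_eq_zero.1 h2 with h3 | h3
        · exact sub_eq_zero.1 h3
        · exact absurd h3 hj₀
      have hc' : e.1 = e'.1 := by
        funext i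
        by_cases hi : i = j₀
        · rw [hi, hcj]
        · exact hc i hi
      refine Prod.ext hc' ?_
      funext i j
      by_cases hij : j = j₀ ∧ i ≠ j₀
      · obtain ⟨rfl, hi⟩ := hij
        have h1 := (Finset.mem_filter.1 he1).2 i
        have h2 := (Finset.mem_filter.1 he1').2 i
        unfold Y at h1 h2
        rw [← Finset.add_sum_erase _ (fun k => (e.2 i k - e.2 k i) * β k) (Finset.mem_univ j)] at h1
        rw [← Finset.add_sum_erase _ (fun k => (e'.2 i k - e'.2 k i) * β k)
          (Finset.mem_univ j)] at h2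
        have h3 : ∑ k ∈ Finset.univ.erase j, (e.2 i k - e.2 k i) * β k =
            ∑ k ∈ Finset.univ.erase j, (e'.2 i k - e'.2 k i) * β k :=
          Finset.sum_congr rfl fun k hk => by
            rw [hM i k fun h4 => Finset.ne_of_mem_erase hk h4.1, hM k i fun h4 => hi h4.1]
        have h4 : e.2 j i = e'.2 j i := hM j i fun h5 => hi h5.1
        rw [h3, h4, hc'] at h1
        have h5 : (e.2 i j - e'.2 i j) * β j = 0 := by linear_combination h2 - h1
        rcases mul_eq_zero.1 h5 with h6 | h6
        · exact sub_eq_zero.1 h6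
        · exact absurd h6 hj₀
      · exact hM i j hij
    rw [Finset.card_univ, Fintype.card_prod, Fintype.card_bool, hcard] at hle
    exact hle

end Pool.Agent.Lib.MP_060d7c_co
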