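import Mathlib

/-! # Two-block construction for distinct distances in `{1, ..., m}^d`: definitions

`F = ZMod P`, the quadratic space `F × F^t × F^t` with the form `x² + α·β`, and for `c ∈ F^t`,
`M ∈ F^(t×t)`, `A = M - Mᵀ` the linear maps `X = x - c·β`, `Y = α - Aβ + 2xc - (c·β)c`, for which
`Q = X² + Y·β`. -/

set_option autoImplicit false

namespace Pool.Agent.Lib.MP_060d7c_co

variable {R : Type*} [CommRing R] {t : ℕ}

/-- The quadratic form `x² + α·β`. -/
def Q (x : R) (α β : Fin t → R) : R := x ^ 2 + ∑ j, α j * β j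

/-- The linear form `X = x - c·β`. -/
def X (c : Fin t → R) (x : R) (β : Fin t → R) : R := x - ∑ j, c j * β j

/-- The linear map `Y = α - (M - Mᵀ)β + 2xc - (c·β)c`. -/
def Y (c : Fin t → R) (M : Fin t → Fin t → R) (x : R) (α β : Fin t → R) (i : Fin t) : R :=
  α i - ∑ j, (M i j - M j i) * β j + 2 * x * c i - c i * ∑ j, c j * β j

theorem antisymm_sum (M : Fin t → Fin t → R) (β : Fin t → R) :
    ∑ i, (∑ j, (M i j - M j i) * β j) * β i = 0 := by
  have h1 : ∑ i, (∑ j, (M i j - M j i) * β j) * β i =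
      ∑ i, ∑ j, M i j * β j * β i - ∑ i, ∑ j, M j i * β j * β i := by
    rw [← Finset.sum_sub_distrib]
    refine Finset.sum_congr rfl fun i _ => ?_
    rw [Finset.sum_mul, ← Finset.sum_sub_distrib]
    exact Finset.sum_congr rfl fun j _ => by ring
  have h2 : ∑ i, ∑ j, M j i * β j * β i = ∑ i, ∑ j, M i j * β j * β i := by
    rw [Finset.sum_comm]
    exact Finset.sum_congr rfl fun i _ => Finset.sum_congr rfl fun j _ => by ring
  rw [h1, h2, sub_self]

theorem Q_eq (c : Fin t → R) (M : Fin t → Fin t → R) (x : R) (α β : Fin t → R) :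
    Q x α β = X c x β ^ 2 + ∑ i, Y c M x α β i * β i := by
  obtain ⟨s, hs⟩ : ∃ s, s = ∑ j, c j * β j := ⟨_, rfl⟩
  have h1 : ∑ i, Y c M x α β i * β i = ∑ i, α i * β i + 2 * x * s - s * s := by
    have h2 : ∀ i, Y c M x α β i * β i = α i * β i - (∑ j, (M i j - M j i) * β j) * β i +
        2 * x * (c i * β i) - s * (c i * β i) := fun i => by
      unfold Y
      rw [← hs]
      ring
    rw [Finset.sum_congr rfl fun i _ => h2 i, Finset.sum_sub_distrib, Finset.sum_add_distrib,
      Finset.sum_sub_distrib, antisymm_sum, ← Finset.mul_sum, ← Finset.mul_sum, ← hs, sub_zero]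
  unfold Q X
  rw [h1, ← hs]
  ring

theorem X_sub (c : Fin t → R) (x x' : R) (β β' : Fin t → R) :
    X c (x - x') (β - β') = X c x β - X c x' β' := by
  unfold X
  simp only [Pi.sub_apply, mul_sub, Finset.sum_sub_distrib]
  ring

theorem Y_sub (c : Fin t → R) (M : Fin t → Fin t → R) (x x' : R) (α α' β β' : Fin t → R)
    (i : Fin t) : Y c M (x - x') (α - α') (β - β') i = Y c M x α β i - Y c M x' α' β' i := by
  unfold Y
  simp only [Pi.sub_apply, mul_sub, Finset.sum_sub_distrib]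
  ring

/-- `S` lies in the grid `{1, ..., m}^d` and has no repeated distance. -/
def Good (d m : ℕ) (S : Finset (EuclideanSpace ℝ (Fin d))) : Prop :=
  (∀ x ∈ S, ∀ i, ∃ k : ℕ, 1 ≤ k ∧ k ≤ m ∧ x i = k) ∧
  ∀ p ∈ S, ∀ q ∈ S, ∀ r ∈ S, ∀ s ∈ S, p ≠ q → r ≠ s → dist p q = dist r s →
    (p = r ∧ q = s) ∨ (p = s ∧ q = r)

end Pool.Agent.Lib.MP_060d7c_co
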