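import Pool.Agent.Lib.MP_060d7c_co.CountY

/-! # The first level in even dimension -/

set_option autoImplicit false

namespace Pool.Agent.Lib.MP_060d7c_co

open Finset

/-- A first `(c, M)` for which `Y` vanishes at no small nonzero vector (union bound over less than
`(2K)^(2t+1)` vectors, each is bad for at most `2 P^(t*t)` of the `P^(t+t*t)` pairs by
`count_Y`). -/
theorem first_level {P t : ℕ} [Fact P.Prime] (hP : P ≠ 2) (I : ZMod P) (hI : I ^ 2 = -1) (K : ℕ)
    (hKP : K ≤ P) (h0 : 2 * (2 * K) ^ (2 * t + 1) < P ^ t) :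
    ∃ (c : Fin t → ZMod P) (M : Fin t → Fin t → ZMod P), ∀ (x : ℤ) (u v : Fin t → ℤ),
      |x| < K → (∀ j, |u j| < K) → (∀ j, |v j| < K) →
      (∀ i, Y c M (x : ZMod P) (fun j => (u j : ZMod P) + I * v j)
        (fun j => (u j : ZMod P) - I * v j) i = 0) → x = 0 ∧ u = 0 ∧ v = 0 := by
  classical
  have hp : P.Prime := Fact.out
  have : NeZero P := ⟨hp.ne_zero⟩
  have h2 : (2 : ZMod P) ≠ 0 := by
    intro h
    have h' : ((2 : ℕ) : ZMod P) = 0 := by exact_mod_cast h
    rw [ZMod.natCast_eq_zero_iff] at h'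
    exact hP ((Nat.prime_dvd_prime_iff_eq hp Nat.prime_two).mp h')
  have hI0 : I ≠ 0 := by
    rintro rfl
    have : (1 : ZMod P) = 0 := by linear_combination hI
    exact one_ne_zero this
  have hsmall : ∀ n : ℤ, |n| < K → (n : ZMod P) = 0 → n = 0 := by
    intro n hn h
    rw [ZMod.intCast_zmod_eq_zero_iff_dvd] at h
    refine Int.eq_zero_of_abs_lt_dvd h ?_
    have : (K : ℤ) ≤ P := by exact_mod_cast hKP
    linarith
  obtain ⟨D, hD⟩ : ∃ D : Finset ℤ, D = Finset.Ioo (-(K : ℤ)) K := ⟨_, rfl⟩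
  have hDmem : ∀ n : ℤ, |n| < K → n ∈ D := by
    intro n hn
    rw [hD, Finset.mem_Ioo]
    exact abs_lt.mp hn
  have hDmem' : ∀ n : ℤ, n ∈ D → |n| < K := by
    intro n hn
    rw [hD, Finset.mem_Ioo] at hn
    exact abs_lt.mpr hn
  have hDcard : D.card ≤ 2 * K := by
    rw [hD, Int.card_Ioo]
    omega
  obtain ⟨T, hT⟩ : ∃ T : Finset (ℤ × (Fin t → ℤ) × (Fin t → ℤ)),
      T = D ×ˢ (Fintype.piFinset (fun _ : Fin t => D)) ×ˢ
        (Fintype.piFinset (fun _ : Fin t => D)) := ⟨_, rfl⟩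
  have hTcard : T.card ≤ (2 * K) ^ (2 * t + 1) := by
    rw [hT, Finset.card_product, Finset.card_product, Fintype.card_piFinset_const]
    calc D.card * (D.card ^ t * D.card ^ t)
        = D.card ^ (2 * t + 1) := by ring
      _ ≤ _ := Nat.pow_le_pow_left hDcard _
  obtain ⟨B, hB⟩ : ∃ B : ℤ × (Fin t → ℤ) × (Fin t → ℤ) →
      Finset ((Fin t → ZMod P) × (Fin t → Fin t → ZMod P)),
      B = fun e => Finset.univ.filter (fun g => ∀ i, Y g.1 g.2 (e.1 : ZMod P)
        (fun j => (e.2.1 j : ZMod P) + I * e.2.2 j)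
        (fun j => (e.2.1 j : ZMod P) - I * e.2.2 j) i = 0) := ⟨_, rfl⟩
  have hBcard : ∀ e ∈ T.erase 0, (B e).card ≤ 2 * P ^ (t * t) := by
    intro e he
    rw [hB]
    refine count_Y hP _ _ _ ?_
    rintro ⟨hx, ha, hb⟩
    rw [Finset.mem_erase, hT, Finset.mem_product, Finset.mem_product, Fintype.mem_piFinset,
      Fintype.mem_piFinset] at he
    obtain ⟨hne, hx1, hu1, hv1⟩ := he
    apply hne
    have ex : e.1 = 0 := hsmall _ (hDmem' _ hx1) hx
    have eu : e.2.1 = 0 := by
      funext j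
      have h1 := congrFun ha j
      have h3 := congrFun hb j
      simp only [Pi.zero_apply] at h1 h3
      refine hsmall _ (hDmem' _ (hu1 j)) ?_
      have h4 : (2 : ZMod P) * (e.2.1 j : ZMod P) = 0 := by linear_combination h1 + h3
      exact (mul_eq_zero.mp h4).resolve_left h2
    have ev : e.2.2 = 0 := by
      funext j
      have h1 := congrFun ha j
      have h3 := congrFun hb j
      simp only [Pi.zero_apply] at h1 h3
      refine hsmall _ (hDmem' _ (hv1 j)) ?_
      have h4 : (2 * I : ZMod P) * (e.2.2 j : ZMod P) = 0 := by linear_combination h1 - h3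
      exact (mul_eq_zero.mp h4).resolve_left (mul_ne_zero h2 hI0)
    exact Prod.ext ex (Prod.ext eu ev)
  by_contra hcon
  push Not at hcon
  have hall : (Finset.univ : Finset ((Fin t → ZMod P) × (Fin t → Fin t → ZMod P))) ⊆
      (T.erase 0).biUnion B := by
    rintro ⟨c, M⟩ -
    obtain ⟨x, u, v, hx, hu, hv, hY, hne⟩ := hcon c M
    rw [Finset.mem_biUnion]
    refine ⟨(x, u, v), ?_, ?_⟩
    · rw [Finset.mem_erase, hT, Finset.mem_product, Finset.mem_product, Fintype.mem_piFinset,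
        Fintype.mem_piFinset]
      refine ⟨?_, hDmem _ hx, fun j => hDmem _ (hu j), fun j => hDmem _ (hv j)⟩
      intro h
      have e1 : x = 0 := congrArg (fun e : ℤ × (Fin t → ℤ) × (Fin t → ℤ) => e.1) h
      have e2 : u = 0 := congrArg (fun e : ℤ × (Fin t → ℤ) × (Fin t → ℤ) => e.2.1) h
      have e3 : v = 0 := congrArg (fun e : ℤ × (Fin t → ℤ) × (Fin t → ℤ) => e.2.2) h
      exact hne e1 e2 e3
    · rw [hB]
      simp only [Finset.mem_filter, Finset.mem_univ, true_and]
      exact hY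
  have h1 := Finset.card_le_card hall
  have h3 : ((T.erase 0).biUnion B).card ≤ (T.erase 0).card * (2 * P ^ (t * t)) :=
    Finset.card_biUnion_le_card_mul _ _ _ hBcard
  have h4 : (T.erase 0).card ≤ (2 * K) ^ (2 * t + 1) := (Finset.card_erase_le).trans hTcard
  have h5 : (Finset.univ : Finset ((Fin t → ZMod P) × (Fin t → Fin t → ZMod P))).card =
      P ^ t * P ^ (t * t) := by
    rw [Finset.card_univ, Fintype.card_prod, Fintype.card_fun, Fintype.card_fun, Fintype.card_fun,
      ZMod.card, Fintype.card_fin, ← pow_mul]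
  rw [h5] at h1
  have h6 : P ^ t * P ^ (t * t) ≤ (2 * (2 * K) ^ (2 * t + 1)) * P ^ (t * t) :=
    calc P ^ t * P ^ (t * t) ≤ (T.erase 0).card * (2 * P ^ (t * t)) := h1.trans h3
      _ ≤ (2 * K) ^ (2 * t + 1) * (2 * P ^ (t * t)) := Nat.mul_le_mul_right _ h4
      _ = _ := by ring
  have h7 : 0 < P ^ (t * t) := pow_pos hp.pos _
  have h8 := Nat.le_of_mul_le_mul_right h6 h7
  omega

end Pool.Agent.Lib.MP_060d7c_co
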