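import Mathlib

/-! # A square root of `-1` modulo `P²` and `P = a² + b²` -/

set_option autoImplicit false

namespace Pool.Agent.Lib.MP_060d7c_co

/-- A square root of `-1` modulo `P²`: `P = a² + b²`, `P² = (a² - b²)² + (2ab)²` and `2ab` is
invertible modulo `P²`. -/
theorem sqrt_neg_one {P : ℕ} [Fact P.Prime] (hP : P % 4 = 1) :
    ∃ I k : ℤ, I ^ 2 + 1 = P ^ 2 * k := by
  obtain ⟨a, b, hab⟩ := Nat.Prime.sq_add_sq (p := P) (by omega)
  have hp : P.Prime := Fact.out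
  have key : ∀ x y : ℕ, x ^ 2 + y ^ 2 = P → ¬ P ∣ x := by
    intro x y h hd
    have h1 : P ∣ y ^ 2 := by
      have h2 : P ∣ x ^ 2 + y ^ 2 := ⟨1, by rw [h, mul_one]⟩
      exact (Nat.dvd_add_right (hd.trans (dvd_pow_self x two_ne_zero))).mp h2
    obtain ⟨r, hr⟩ := hd
    obtain ⟨s, hs⟩ := hp.dvd_of_dvd_pow h1
    have h3 : P * (P * (r ^ 2 + s ^ 2)) = P * 1 := by
      rw [hr, hs] at h
      nlinarith [h]
    have h4 := Nat.eq_of_mul_eq_mul_left hp.pos h3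
    exact hp.one_lt.ne' (Nat.eq_one_of_mul_eq_one_right h4)
  have ha : ¬ P ∣ a := key a b hab
  have hb : ¬ P ∣ b := key b a (by rw [add_comm]; exact hab)
  have h2 : ¬ P ∣ 2 := fun h => by
    have := Nat.le_of_dvd two_pos h
    have := hp.two_le
    omega
  have hc : Nat.Coprime (2 * a * b) (P ^ 2) := by
    refine Nat.Coprime.pow_right 2 ?_
    refine Nat.Coprime.symm ((Nat.Prime.coprime_iff_not_dvd hp).mpr fun h => ?_)
    rcases (Nat.Prime.dvd_mul hp).mp h with h | h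
    · rcases (Nat.Prime.dvd_mul hp).mp h with h | h
      · exact h2 h
      · exact ha h
    · exact hb h
  obtain ⟨u, v, huv⟩ := Nat.isCoprime_iff_coprime.mpr hc
  refine ⟨((a : ℤ) ^ 2 - b ^ 2) * u, u ^ 2 + 4 * a * b * u * v + v ^ 2 * P ^ 2, ?_⟩
  have hab' : (a : ℤ) ^ 2 + b ^ 2 = P := by exact_mod_cast hab
  push_cast at huv
  have h1 : (1 : ℤ) = (u * (2 * a * b) + v * P ^ 2) ^ 2 := by rw [huv, one_pow]
  rw [h1]
  have h3 : (P : ℤ) ^ 2 = ((a : ℤ) ^ 2 - b ^ 2) ^ 2 + (2 * a * b) ^ 2 := by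
    rw [← hab']
    ring
  have h4 : (((a : ℤ) ^ 2 - b ^ 2) * u) ^ 2 + (u * (2 * a * b) + v * P ^ 2) ^ 2 =
      u ^ 2 * (((a : ℤ) ^ 2 - b ^ 2) ^ 2 + (2 * a * b) ^ 2) +
        P ^ 2 * (4 * a * b * u * v + v ^ 2 * P ^ 2) := by ring
  rw [h4, ← h3]
  ring

/-- `P = a² + b²` with `a, b ≤ √P`. -/
theorem two_squares {P : ℕ} [Fact P.Prime] (hP : P % 4 = 1) :
    ∃ a b : ℤ, a ^ 2 + b ^ 2 = P ∧ 0 ≤ a ∧ a ≤ Nat.sqrt P ∧ 0 ≤ b ∧ b ≤ Nat.sqrt P := by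
  obtain ⟨a, b, hab⟩ := Nat.Prime.sq_add_sq (p := P) (by omega)
  refine ⟨a, b, by exact_mod_cast hab, Int.natCast_nonneg a, ?_, Int.natCast_nonneg b, ?_⟩
  · exact_mod_cast Nat.le_sqrt'.mpr (by omega)
  · exact_mod_cast Nat.le_sqrt'.mpr (by omega)

end Pool.Agent.Lib.MP_060d7c_co
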