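import Pool.Agent.Lib.MP_060d7c_co.Block
import Pool.Agent.Lib.MP_060d7c_co.Sqrt
import Pool.Agent.Lib.MP_060d7c_co.First

/-! # Even dimension `d = 2t + 4`, `t ≥ 1` -/

set_option autoImplicit false

namespace Pool.Agent.Lib.MP_060d7c_co

open Finset

/-- The second block. -/
def evenZ {t : ℕ} (a b s x : ℤ) (u v : Fin t → ℤ) : Fin 3 ⊕ (Fin t ⊕ Fin t) → ℤ
  | Sum.inl 0 => -b * s
  | Sum.inl 1 => a * s
  | Sum.inl 2 => x
  | Sum.inr (Sum.inl j) => u j
  | Sum.inr (Sum.inr j) => v j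

theorem evenZ_sum {t : ℕ} (a b s x s' x' : ℤ) (u v u' v' : Fin t → ℤ) :
    ∑ k, (evenZ a b s x u v k - evenZ a b s' x' u' v' k) ^ 2 =
      (a ^ 2 + b ^ 2) * (s - s') ^ 2 + ((x - x') ^ 2 +
        ∑ j, ((u j - u' j) ^ 2 + (v j - v' j) ^ 2)) := by
  rw [Fintype.sum_sum_type, Fin.sum_univ_three, Fintype.sum_sum_type, Finset.sum_add_distrib]
  simp only [evenZ]
  ring

private theorem even_cast_X {P t : ℕ} (c : Fin t → ℤ) (x : ℤ) (β : Fin t → ℤ) :
    ((X c x β : ℤ) : ZMod P) =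
      X (fun i => (c i : ZMod P)) (x : ZMod P) (fun i => (β i : ZMod P)) := by
  unfold X
  push_cast
  rfl

private theorem even_cast_Y {P t : ℕ} (c : Fin t → ℤ) (M : Fin t → Fin t → ℤ) (x : ℤ)
    (α β : Fin t → ℤ) (i : Fin t) :
    ((Y c M x α β i : ℤ) : ZMod P) =
      Y (fun i => (c i : ZMod P)) (fun i j => (M i j : ZMod P)) (x : ZMod P)
        (fun i => (α i : ZMod P)) (fun i => (β i : ZMod P)) i := by
  unfold Y
  push_cast
  rfl

private theorem even_Y_mul {t : ℕ} (c : Fin t → ℤ) (M : Fin t → Fin t → ℤ) (r x : ℤ)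
    (α β : Fin t → ℤ) (i : Fin t) :
    Y c M (r * x) (fun j => r * α j) (fun j => r * β j) i = r * Y c M x α β i := by
  unfold Y
  have h1 : ∑ j, (M i j - M j i) * (r * β j) = r * ∑ j, (M i j - M j i) * β j := by
    rw [Finset.mul_sum]
    exact Finset.sum_congr rfl fun j _ => by ring
  have h2 : ∑ j, c j * (r * β j) = r * ∑ j, c j * β j := by
    rw [Finset.mul_sum]
    exact Finset.sum_congr rfl fun j _ => by ring
  rw [h1, h2]
  ring

/-- Norm of an integer vector `(x, u, v)` through `X` and `Y`, `I² + 1 = P² k`. -/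
private theorem even_norm {t : ℕ} (c : Fin t → ℤ) (M : Fin t → Fin t → ℤ) (I k p x : ℤ)
    (u v : Fin t → ℤ) (hI : I ^ 2 + 1 = p ^ 2 * k) (ξ : ℤ) (y : Fin t → ℤ)
    (hX : X c x (fun j => u j - I * v j) = p * ξ)
    (hY : ∀ i, Y c M x (fun j => u j + I * v j) (fun j => u j - I * v j) i = p * y i) :
    x ^ 2 + ∑ j, (u j ^ 2 + v j ^ 2) =
      p * (p * ξ ^ 2 + ∑ i, y i * (u i - I * v i) + p * k * ∑ j, v j ^ 2) := by
  have h1 : x ^ 2 + ∑ j, (u j ^ 2 + v j ^ 2) =
      Q x (fun j => u j + I * v j) (fun j => u j - I * v j) + (I ^ 2 + 1) * ∑ j, v j ^ 2 := by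
    unfold Q
    rw [add_assoc, Finset.mul_sum, ← Finset.sum_add_distrib]
    congr 1
    exact Finset.sum_congr rfl fun j _ => by ring
  rw [h1, Q_eq c M, hX, Finset.sum_congr rfl fun i _ => by rw [hY i]]
  have h2 : ∑ i, p * y i * (u i - I * v i) = p * ∑ i, y i * (u i - I * v i) := by
    rw [Finset.mul_sum]
    exact Finset.sum_congr rfl fun j _ => by ring
  rw [h2, hI]
  ring

/-- `P = a² + b²`; index set `(s, β, (x, u, v)) ∈ [0, N) × F^t × [0, K)^(2t+1)`, second block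
`(-b s, a s), v(β) + P (x, u, v)` in `Z^(2t+3)`, where `v(β)` has the entries in `[0, P)` of the
vector with `X = 0`, `Y = 0` and given `β`. -/
theorem even_case {P t : ℕ} [Fact P.Prime] (hP : P % 4 = 1) (N K C m : ℕ) (hKP : K ≤ P)
    (hNP : N ≤ P) (h0 : 2 * (2 * K) ^ (2 * t + 1) < P ^ t)
    (h1 : N * K ^ (2 * t + 1) ≤ P) (h2 : P ≤ C * (N * K ^ (2 * t + 1)))
    (hm1 : 2 * (Nat.sqrt P * N) + 1 ≤ m) (hm2 : 2 * (K * P) + 1 ≤ m) :
    ∃ S : Finset (EuclideanSpace ℝ (Fin (2 * t + 4))), Good (2 * t + 4) m S ∧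
      P ≤ 12 * C * S.card := by
  classical
  have hp : P.Prime := Fact.out
  have : NeZero P := ⟨hp.ne_zero⟩
  have hP0 : 0 < P := hp.pos
  have hPz : (P : ℤ) ≠ 0 := by exact_mod_cast hP0.ne'
  have hPF : (P : ZMod P) = 0 := ZMod.natCast_self P
  have hP2 : P ≠ 2 := by
    rintro rfl
    omega
  have h20 : (2 : ZMod P) ≠ 0 := by
    have h3 : ((2 : ℕ) : ZMod P) ≠ 0 := by
      rw [Ne, ZMod.natCast_eq_zero_iff]
      intro h4
      exact hP2 ((Nat.prime_dvd_prime_iff_eq hp Nat.prime_two).1 h4)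
    exact_mod_cast h3
  have hK0 : 0 < K := by
    rcases Nat.eq_zero_or_pos K with h | h
    · rw [h, zero_pow (by omega), mul_zero, mul_zero] at h2
      omega
    · exact h
  have hPm : P ≤ m := by
    have : P ≤ K * P := Nat.le_mul_of_pos_left P hK0
    omega
  obtain ⟨a, b, hab, ha0, ha, hb0, hb⟩ := two_squares hP
  obtain ⟨I, k, hI⟩ := sqrt_neg_one hP
  have hIF : (I : ZMod P) ^ 2 = -1 := by
    have h3 := congrArg (fun z : ℤ => (z : ZMod P)) hI
    push_cast at h3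
    rw [hPF] at h3
    linear_combination h3
  have hI0 : (I : ZMod P) ≠ 0 := by
    intro h
    rw [h] at hIF
    have : (1 : ZMod P) = 0 := by linear_combination hIF
    exact one_ne_zero this
  obtain ⟨c, M, hcM⟩ := first_level hP2 (I : ZMod P) hIF K hKP h0
  -- integer lifts
  obtain ⟨cz, hcz⟩ : ∃ cz : Fin t → ℤ, (fun i => (cz i : ZMod P)) = c :=
    ⟨fun i => ((c i).val : ℤ), by funext i; push_cast; exact ZMod.natCast_zmod_val _⟩
  obtain ⟨Mz, hMz⟩ : ∃ Mz : Fin t → Fin t → ℤ, (fun i j => (Mz i j : ZMod P)) = M :=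
    ⟨fun i j => ((M i j).val : ℤ), by funext i j; push_cast; exact ZMod.natCast_zmod_val _⟩
  -- the base points
  have hbase : ∀ β : Fin t → ZMod P, ∃ (x : ℕ) (u v : Fin t → ℕ), x < P ∧ (∀ j, u j < P) ∧
      (∀ j, v j < P) ∧ (∀ j, (u j : ZMod P) - I * (v j : ZMod P) = β j) ∧
      X c (x : ZMod P) β = 0 ∧
      ∀ i, Y c M (x : ZMod P) (fun j => (u j : ZMod P) + I * (v j : ZMod P)) β i = 0 := by
    intro β
    obtain ⟨σ, hσ⟩ : ∃ σ, σ = ∑ j, c j * β j := ⟨_, rfl⟩
    obtain ⟨al, hal⟩ : ∃ al : Fin t → ZMod P, ∀ i,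
        al i = ∑ j, (M i j - M j i) * β j - σ * c i := ⟨_, fun _ => rfl⟩
    have hu : ∀ j, ((((al j + β j) / 2).val : ℕ) : ZMod P) = (al j + β j) / 2 :=
      fun j => ZMod.natCast_zmod_val _
    have hv : ∀ j, ((((al j - β j) / (2 * I)).val : ℕ) : ZMod P) = (al j - β j) / (2 * I) :=
      fun j => ZMod.natCast_zmod_val _
    have hσv : ((σ.val : ℕ) : ZMod P) = σ := ZMod.natCast_zmod_val _
    refine ⟨σ.val, fun j => ((al j + β j) / 2).val, fun j => ((al j - β j) / (2 * I)).val,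
      ZMod.val_lt _, fun j => ZMod.val_lt _, fun j => ZMod.val_lt _, fun j => ?_, ?_, fun i => ?_⟩
    · rw [hu, hv]
      field_simp
      ring
    · unfold X
      rw [hσv, ← hσ, sub_self]
    · have h3 : (fun j => ((((al j + β j) / 2).val : ℕ) : ZMod P) +
          I * ((((al j - β j) / (2 * I)).val : ℕ) : ZMod P)) = al := by
        funext j
        rw [hu, hv]
        field_simp
        ring
      rw [h3]
      unfold Y
      rw [hσv, ← hσ, hal]
      ring
  choose bx bu bv hbx hbu hbv hbβ hbX hbY using hbase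
  -- the points of the second block
  obtain ⟨wx, hwx⟩ : ∃ wx : Fin N × (Fin t → ZMod P) × (Fin K × (Fin t → Fin K) × (Fin t → Fin K)) →
      ℤ, ∀ e, wx e = bx e.2.1 + P * ((e.2.2.1 : ℕ) : ℤ) := ⟨_, fun _ => rfl⟩
  obtain ⟨wu, hwu⟩ : ∃ wu : Fin N × (Fin t → ZMod P) × (Fin K × (Fin t → Fin K) × (Fin t → Fin K)) →
      Fin t → ℤ, ∀ e j, wu e j = bu e.2.1 j + P * ((e.2.2.2.1 j : ℕ) : ℤ) := ⟨_, fun _ _ => rfl⟩
  obtain ⟨wv, hwv⟩ : ∃ wv : Fin N × (Fin t → ZMod P) × (Fin K × (Fin t → Fin K) × (Fin t → Fin K)) →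
      Fin t → ℤ, ∀ e j, wv e j = bv e.2.1 j + P * ((e.2.2.2.2 j : ℕ) : ℤ) := ⟨_, fun _ _ => rfl⟩
  have hcx : ∀ e, (wx e : ZMod P) = (bx e.2.1 : ZMod P) := by
    intro e
    rw [hwx]
    push_cast
    rw [hPF]
    ring
  have hcu : ∀ e j, (wu e j : ZMod P) = (bu e.2.1 j : ZMod P) := by
    intro e j
    rw [hwu]
    push_cast
    rw [hPF]
    ring
  have hcv : ∀ e j, (wv e j : ZMod P) = (bv e.2.1 j : ZMod P) := by
    intro e j
    rw [hwv]
    push_cast
    rw [hPF]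
    ring
  have hcβ : ∀ e, (fun j => ((wu e j - I * wv e j : ℤ) : ZMod P)) = e.2.1 := by
    intro e
    funext j
    push_cast
    rw [hcu, hcv, hbβ]
  have hcα : ∀ e, (fun j => ((wu e j + I * wv e j : ℤ) : ZMod P)) =
      fun j => (bu e.2.1 j : ZMod P) + I * (bv e.2.1 j : ZMod P) := by
    intro e
    funext j
    push_cast
    rw [hcu, hcv]
  have hXe : ∀ e, ∃ ξ : ℤ, X cz (wx e) (fun j => wu e j - I * wv e j) = P * ξ := by
    intro e
    have h3 : ((X cz (wx e) (fun j => wu e j - I * wv e j) : ℤ) : ZMod P) = 0 := by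
      rw [even_cast_X, hcz, hcβ, hcx, hbX]
    obtain ⟨ξ, hξ⟩ := (ZMod.intCast_zmod_eq_zero_iff_dvd _ P).1 h3
    exact ⟨ξ, hξ⟩
  have hYe : ∀ e i, ∃ y : ℤ, Y cz Mz (wx e) (fun j => wu e j + I * wv e j)
      (fun j => wu e j - I * wv e j) i = P * y := by
    intro e i
    have h3 : ((Y cz Mz (wx e) (fun j => wu e j + I * wv e j)
        (fun j => wu e j - I * wv e j) i : ℤ) : ZMod P) = 0 := by
      rw [even_cast_Y, hcz, hMz, hcβ, hcα, hcx, hbY]
    obtain ⟨y, hy⟩ := (ZMod.intCast_zmod_eq_zero_iff_dvd _ P).1 h3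
    exact ⟨y, hy⟩
  choose ξ hξ using hXe
  choose y hy using hYe
  -- differences
  have hXd : ∀ e e', X cz (wx e - wx e')
      (fun j => (wu e j - wu e' j) - I * (wv e j - wv e' j)) = P * (ξ e - ξ e') := by
    intro e e'
    have h3 : (fun j => (wu e j - wu e' j) - I * (wv e j - wv e' j)) =
        (fun j => wu e j - I * wv e j) - fun j => wu e' j - I * wv e' j := by
      funext j
      simp only [Pi.sub_apply]
      ring
    rw [h3, X_sub, hξ, hξ]
    ring
  have hYd : ∀ e e' i, Y cz Mz (wx e - wx e')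
      (fun j => (wu e j - wu e' j) + I * (wv e j - wv e' j))
      (fun j => (wu e j - wu e' j) - I * (wv e j - wv e' j)) i = P * (y e i - y e' i) := by
    intro e e' i
    have h3 : (fun j => (wu e j - wu e' j) - I * (wv e j - wv e' j)) =
        (fun j => wu e j - I * wv e j) - fun j => wu e' j - I * wv e' j := by
      funext j
      simp only [Pi.sub_apply]
      ring
    have h4 : (fun j => (wu e j - wu e' j) + I * (wv e j - wv e' j)) =
        (fun j => wu e j + I * wv e j) - fun j => wu e' j + I * wv e' j := by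
      funext j
      simp only [Pi.sub_apply]
      ring
    rw [h3, h4, Y_sub, hy, hy]
    ring
  have hcard : (univ : Finset (Fin N × (Fin t → ZMod P) ×
      (Fin K × (Fin t → Fin K) × (Fin t → Fin K)))).card = P ^ t * (N * K ^ (2 * t + 1)) := by
    rw [card_univ, Fintype.card_prod, Fintype.card_prod, Fintype.card_prod, Fintype.card_prod,
      Fintype.card_fun, Fintype.card_fun, ZMod.card, Fintype.card_fin, Fintype.card_fin,
      Fintype.card_fin]
    ring
  obtain ⟨B, hB⟩ : ∃ B : ℕ, B = max (Nat.sqrt P * N) (K * P) := ⟨_, rfl⟩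
  have hB1 : Nat.sqrt P * N ≤ B := by rw [hB]; exact le_max_left _ _
  have hB2 : K * P ≤ B := by rw [hB]; exact le_max_right _ _
  have hmB : 2 * B + 1 ≤ m := by
    rcases le_total (Nat.sqrt P * N) (K * P) with h | h
    · rw [hB, max_eq_right h]
      exact hm2
    · rw [hB, max_eq_left h]
      exact hm1
  have hsB : ∀ d : ℤ, 0 ≤ d → d ≤ Nat.sqrt P → ∀ s : Fin N,
      0 ≤ d * ((s : ℕ) : ℤ) ∧ d * ((s : ℕ) : ℤ) ≤ B := by
    intro d hd0 hd s
    have hr : ((s : ℕ) : ℤ) ≤ N := by exact_mod_cast s.2.le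
    have hr0 : (0 : ℤ) ≤ ((s : ℕ) : ℤ) := Int.natCast_nonneg _
    refine ⟨mul_nonneg hd0 hr0, (mul_le_mul hd hr hr0 (Int.natCast_nonneg _)).trans ?_⟩
    exact_mod_cast hB1
  have hwB : ∀ (r : ℕ) (s : Fin K), r < P →
      0 ≤ (r : ℤ) + P * ((s : ℕ) : ℤ) ∧ (r : ℤ) + P * ((s : ℕ) : ℤ) ≤ B := by
    intro r s hr
    refine ⟨by positivity, ?_⟩
    have h3 : r + P * (s : ℕ) ≤ B := by
      have h4 : P * ((s : ℕ) + 1) ≤ P * K := Nat.mul_le_mul_left _ s.2
      have h5 : P * ((s : ℕ) + 1) = P * (s : ℕ) + P := by ring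
      have h6 : P * K = K * P := mul_comm _ _
      omega
    exact_mod_cast h3
  refine block hP2 (κ := Fin 3 ⊕ (Fin t ⊕ Fin t)) univ (fun e => ((e.1 : ℕ) : ZMod P))
    (fun e i => (y e i : ZMod P)) (fun e => e.2.1) ?_
    (fun e => evenZ a b ((e.1 : ℕ) : ℤ) (wx e) (wu e) (wv e)) B ?_ ?_ C ?_ ?_ (2 * t + 4) m ?_
    hmB hPm
  · rintro e _ e' _ hs hα hβ
    have hs' : e.1 = e'.1 := by
      refine Fin.ext ?_
      have h3 := (ZMod.natCast_eq_natCast_iff' (e.1 : ℕ) (e'.1 : ℕ) P).1 hs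
      rwa [Nat.mod_eq_of_lt (e.1.2.trans_le hNP), Nat.mod_eq_of_lt (e'.1.2.trans_le hNP)] at h3
    obtain ⟨x, hx⟩ : ∃ x : ℤ, x = ((e.2.2.1 : ℕ) : ℤ) - ((e'.2.2.1 : ℕ) : ℤ) := ⟨_, rfl⟩
    obtain ⟨u, hu⟩ : ∃ u : Fin t → ℤ, ∀ j,
        u j = ((e.2.2.2.1 j : ℕ) : ℤ) - ((e'.2.2.2.1 j : ℕ) : ℤ) := ⟨_, fun _ => rfl⟩
    obtain ⟨v, hv⟩ : ∃ v : Fin t → ℤ, ∀ j,
        v j = ((e.2.2.2.2 j : ℕ) : ℤ) - ((e'.2.2.2.2 j : ℕ) : ℤ) := ⟨_, fun _ => rfl⟩
    have hY0 : ∀ i, Y cz Mz x (fun j => u j + I * v j) (fun j => u j - I * v j) i =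
        y e i - y e' i := by
      intro i
      have h3 := hYd e e' i
      have h4 : wx e - wx e' = P * x := by
        rw [hwx, hwx, hβ, hx]
        ring
      have h5 : (fun j => (wu e j - wu e' j) + I * (wv e j - wv e' j)) =
          fun j => (P : ℤ) * (u j + I * v j) := by
        funext j
        rw [hwu, hwu, hwv, hwv, hβ, hu, hv]
        ring
      have h6 : (fun j => (wu e j - wu e' j) - I * (wv e j - wv e' j)) =
          fun j => (P : ℤ) * (u j - I * v j) := by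
        funext j
        rw [hwu, hwu, hwv, hwv, hβ, hu, hv]
        ring
      rw [h4, h5, h6, even_Y_mul cz Mz (P : ℤ) x (fun j => u j + I * v j)
        (fun j => u j - I * v j)] at h3
      exact mul_left_cancel₀ hPz h3
    have habs : ∀ r s : Fin K, |((r : ℕ) : ℤ) - ((s : ℕ) : ℤ)| < K := by
      intro r s
      rw [abs_lt]
      have := r.2
      have := s.2
      constructor <;> omega
    obtain ⟨hx0, hu0, hv0⟩ := hcM x u v (by rw [hx]; exact habs _ _)
      (fun j => by rw [hu]; exact habs _ _) (fun j => by rw [hv]; exact habs _ _) (fun i => by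
        have h3 : ((Y cz Mz x (fun j => u j + I * v j) (fun j => u j - I * v j) i : ℤ) : ZMod P) =
            ((y e i - y e' i : ℤ) : ZMod P) := by rw [hY0 i]
        rw [even_cast_Y, hcz, hMz] at h3
        have h4 := congrFun hα i
        push_cast at h3
        rw [h4, sub_self] at h3
        exact h3)
    have e1 : e.2.2.1 = e'.2.2.1 := by
      refine Fin.ext ?_
      omega
    have e2 : e.2.2.2.1 = e'.2.2.2.1 := by
      funext j
      refine Fin.ext ?_
      have h3 := hu j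
      rw [hu0, Pi.zero_apply] at h3
      omega
    have e3 : e.2.2.2.2 = e'.2.2.2.2 := by
      funext j
      refine Fin.ext ?_
      have h3 := hv j
      rw [hv0, Pi.zero_apply] at h3
      omega
    exact Prod.ext hs' (Prod.ext hβ (Prod.ext e1 (Prod.ext e2 e3)))
  · rintro e _ l
    rw [abs_le]
    match l with
    | Sum.inl 0 =>
      obtain ⟨h3, h4⟩ := hsB b hb0 hb e.1
      simp only [evenZ]
      constructor <;> linarith
    | Sum.inl 1 =>
      obtain ⟨h3, h4⟩ := hsB a ha0 ha e.1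
      simp only [evenZ]
      constructor <;> linarith
    | Sum.inl 2 =>
      obtain ⟨h3, h4⟩ := hwB (bx e.2.1) e.2.2.1 (hbx _)
      simp only [evenZ]
      rw [hwx]
      constructor <;> linarith
    | Sum.inr (Sum.inl j) =>
      obtain ⟨h3, h4⟩ := hwB (bu e.2.1 j) (e.2.2.2.1 j) (hbu _ j)
      simp only [evenZ]
      rw [hwu]
      constructor <;> linarith
    | Sum.inr (Sum.inr j) =>
      obtain ⟨h3, h4⟩ := hwB (bv e.2.1 j) (e.2.2.2.2 j) (hbv _ j)
      simp only [evenZ]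
      rw [hwv]
      constructor <;> linarith
  · rintro e _ e' _
    refine ⟨(((e.1 : ℕ) : ℤ) - ((e'.1 : ℕ) : ℤ)) ^ 2 + (P * (ξ e - ξ e') ^ 2 +
      ∑ i, (y e i - y e' i) * ((wu e i - wu e' i) - I * (wv e i - wv e' i)) +
      P * k * ∑ j, (wv e j - wv e' j) ^ 2), ?_, ?_⟩
    · rw [evenZ_sum, hab, even_norm cz Mz I k (P : ℤ) (wx e - wx e') (fun j => wu e j - wu e' j)
        (fun j => wv e j - wv e' j) hI (ξ e - ξ e') (fun i => y e i - y e' i) (hXd e e')
        (hYd e e')]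
      ring
    · have hβ : ∀ i, (((wu e i - wu e' i) - I * (wv e i - wv e' i) : ℤ) : ZMod P) =
          e.2.1 i - e'.2.1 i := by
        intro i
        have h3 := congrFun (hcβ e) i
        have h4 := congrFun (hcβ e') i
        rw [← h3, ← h4]
        push_cast
        ring
      unfold Q
      push_cast
      push_cast at hβ
      rw [hPF, Finset.sum_congr rfl fun i _ => by rw [hβ i]]
      simp only [Pi.sub_apply]
      ring
  · rw [hcard]
    calc P ^ t * (N * K ^ (2 * t + 1)) ≤ P ^ t * P := Nat.mul_le_mul_left _ h1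
      _ = P ^ (t + 1) := by ring
  · rw [hcard]
    calc P ^ (t + 1) = P ^ t * P := by ring
      _ ≤ P ^ t * (C * (N * K ^ (2 * t + 1))) := Nat.mul_le_mul_left _ h2
      _ = C * (P ^ t * (N * K ^ (2 * t + 1))) := by ring
  · simp only [Fintype.card_sum, Fintype.card_fin]
    ring

end Pool.Agent.Lib.MP_060d7c_co
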