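import Pool.Agent.Lib.MP_629a14_nt.Rob.PiAP

/-! # Primes `1 mod 4` in `(N/2, N]` -/

set_option autoImplicit false

namespace Pool.Agent.Lib.MP_060d7c_co

open Finset

/-- Primes `1 mod 4` in `(N/2, N]` (prime number theorem in arithmetic progressions, `pi_unif`). -/
theorem exists_prime : ∃ N₀ : ℕ, ∀ N : ℕ, N₀ ≤ N → ∃ P : ℕ, P.Prime ∧ P % 4 = 1 ∧ N < 2 * P ∧
    P ≤ N := by
  obtain ⟨N₀, h⟩ := Pool.Agent.Lib.MP_629a14_nt.Rob.pi_unif 4 1 (by norm_num) (by norm_num)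
    (1 / 16) (by norm_num)
  refine ⟨max N₀ 1, fun N hN => ?_⟩
  have hN0 : N₀ ≤ N := (le_max_left _ _).trans hN
  have hN1 : 1 ≤ N := (le_max_right _ _).trans hN
  by_contra hcon
  push Not at hcon
  have h1 := h N hN0 N le_rfl
  have h2 := h N hN0 (N / 2) (Nat.div_le_self _ _)
  have hsub : (Icc 1 N).filter (fun n => n.Prime ∧ n ≡ 1 [MOD 4]) =
      (Icc 1 (N / 2)).filter (fun n => n.Prime ∧ n ≡ 1 [MOD 4]) := by
    ext p
    simp only [mem_filter, mem_Icc]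
    constructor
    · rintro ⟨⟨h3, h4⟩, h5, h6⟩
      refine ⟨⟨h3, ?_⟩, h5, h6⟩
      by_contra h7
      have h8 := hcon p h5 h6 (by omega)
      omega
    · rintro ⟨⟨h3, h4⟩, h5, h6⟩
      exact ⟨⟨h3, h4.trans (Nat.div_le_self _ _)⟩, h5, h6⟩
  have ht : Nat.totient 4 = 2 := by decide
  rw [hsub] at h1
  rw [ht] at h1 h2
  have h3 : (((N / 2 : ℕ) : ℝ)) ≤ N / 2 := by
    have := @Nat.cast_div_le ℝ _ _ _ N 2
    simpa using this
  have hNpos : (0 : ℝ) < N := by exact_mod_cast hN1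
  rw [abs_le] at h1 h2
  push_cast at h1 h2
  linarith [h1.1, h1.2, h2.1, h2.2]

end Pool.Agent.Lib.MP_060d7c_co
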