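import Pool.Agent.Lib.MP_060d7c_co.Odd
import Pool.Agent.Lib.MP_060d7c_co.Primes

/-! # Choice of the parameters, odd dimension -/

set_option autoImplicit false

namespace Pool.Agent.Lib.MP_060d7c_co

/-- A single point is good. -/
theorem oddF_one_point (d m : ℕ) (hm : 1 ≤ m) :
    ∃ S : Finset (EuclideanSpace ℝ (Fin d)), Good d m S ∧ S.card = 1 := by
  refine ⟨{WithLp.toLp 2 (fun _ => (1 : ℝ))}, ⟨?_, ?_⟩, Finset.card_singleton _⟩
  · intro x hx i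
    rw [Finset.mem_singleton] at hx
    subst hx
    exact ⟨1, le_refl 1, hm, by simp⟩
  · intro p hp q hq r hr s hs hpq
    rw [Finset.mem_singleton] at hp hq
    exact absurd (hp.trans hq.symm) hpq

/-- Integer `k`-th root. -/
theorem oddF_floor_root (k n : ℕ) (hk : k ≠ 0) : ∃ N : ℕ, N ^ k ≤ n ∧ n < (N + 1) ^ k := by
  have hex : ∃ N : ℕ, n < (N + 1) ^ k := ⟨n, by
    calc n < n + 1 := Nat.lt_succ_self n
      _ = (n + 1) ^ 1 := (pow_one _).symm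
      _ ≤ (n + 1) ^ k := Nat.pow_le_pow_right (Nat.succ_pos n) (Nat.one_le_iff_ne_zero.2 hk)⟩
  classical
  refine ⟨Nat.find hex, ?_, Nat.find_spec hex⟩
  rcases Nat.eq_zero_or_pos (Nat.find hex) with h | h
  · rw [h, zero_pow hk]
    exact Nat.zero_le n
  · have h1 := Nat.find_min hex (Nat.sub_lt h Nat.one_pos)
    rw [Nat.sub_add_cancel h] at h1
    exact not_lt.1 h1

/-- `N = ⌊(m/5)^((4t+2)/(4t+3))⌋`, `P` from `exists_prime`, `R = ⌊P^((t+1)/(2t+1))⌋`; for small `m` a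
single point. -/
theorem odd_final (t : ℕ) : ∃ c : ℝ, 0 < c ∧ ∀ m : ℕ, 1 ≤ m →
    ∃ S : Finset (EuclideanSpace ℝ (Fin (2 * t + 3))), Good (2 * t + 3) m S ∧
      c * (m : ℝ) ^ (((4 * t + 2 : ℕ) : ℝ) / (4 * t + 3 : ℕ)) ≤ S.card := by
  obtain ⟨N₀, hN₀⟩ := exists_prime
  obtain ⟨e, he⟩ : ∃ e : ℝ, e = ((4 * t + 2 : ℕ) : ℝ) / (4 * t + 3 : ℕ) := ⟨_, rfl⟩
  have h43 : (0 : ℝ) < ((4 * t + 3 : ℕ) : ℝ) := by positivity
  have he0 : 0 ≤ e := by rw [he]; positivity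
  have he1 : e ≤ 1 := by
    rw [he, div_le_one h43]
    exact_mod_cast Nat.le_succ (4 * t + 2)
  rw [← he]
  obtain ⟨M₀, hM₀⟩ : ∃ M₀ : ℕ, M₀ = 5 * (N₀ + 1) ^ (4 * t + 3) := ⟨_, rfl⟩
  have hM₀5 : 5 ≤ M₀ := by
    rw [hM₀]
    exact Nat.le_mul_of_pos_right 5 (Nat.pow_pos (Nat.succ_pos N₀))
  obtain ⟨K, hK⟩ : ∃ K : ℕ, K = 2 ^ (2 * t + 1) := ⟨_, rfl⟩
  have hK0 : 0 < K := by rw [hK]; positivity
  obtain ⟨c₁, hc₁⟩ : ∃ c₁ : ℝ, c₁ = (1 / 10 : ℝ) ^ e / (24 * K) := ⟨_, rfl⟩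
  have hc₁0 : 0 < c₁ := by rw [hc₁]; positivity
  refine ⟨min c₁ (1 / M₀), lt_min hc₁0 (by positivity), fun m hm => ?_⟩
  rcases lt_or_ge m M₀ with hmM | hmM
  · obtain ⟨S, hS, hS1⟩ := oddF_one_point (2 * t + 3) m hm
    refine ⟨S, hS, ?_⟩
    rw [hS1]
    have hm1 : (1 : ℝ) ≤ m := by exact_mod_cast hm
    have h1 : (m : ℝ) ^ e ≤ m := by
      calc (m : ℝ) ^ e ≤ (m : ℝ) ^ (1 : ℝ) := Real.rpow_le_rpow_of_exponent_le hm1 he1
        _ = m := Real.rpow_one _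
    have h2 : (m : ℝ) ≤ M₀ := by exact_mod_cast hmM.le
    have hM0 : (0 : ℝ) < M₀ := by
      have : 0 < M₀ := by omega
      exact_mod_cast this
    calc min c₁ (1 / M₀) * (m : ℝ) ^ e ≤ 1 / M₀ * M₀ :=
          mul_le_mul (min_le_right _ _) (h1.trans h2) (by positivity) (by positivity)
      _ = 1 := by field_simp
      _ = ((1 : ℕ) : ℝ) := by norm_num
  · -- large `m`
    obtain ⟨q, hq⟩ : ∃ q : ℕ, q = m / 5 := ⟨_, rfl⟩
    have hq1 : (N₀ + 1) ^ (4 * t + 3) ≤ q := by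
      rw [hq, Nat.le_div_iff_mul_le (by norm_num)]
      rw [hM₀] at hmM
      linarith
    have hq0 : 1 ≤ q := le_trans (Nat.one_le_pow _ _ (Nat.succ_pos N₀)) hq1
    have hq5 : 5 * q ≤ m := by rw [hq]; exact Nat.mul_div_le m 5
    have hqm : m ≤ 10 * q := by
      have := Nat.div_add_mod m 5
      have h5 := Nat.mod_lt m (show 5 > 0 by norm_num)
      rw [← hq] at this
      omega
    obtain ⟨N, hN1, hN2⟩ := oddF_floor_root (4 * t + 3) (q ^ (4 * t + 2)) (by omega)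
    have hNN : N₀ ≤ N := by
      by_contra hcon
      have h1 : N + 1 ≤ N₀ + 1 := by omega
      have h2 : (N + 1) ^ (4 * t + 3) ≤ q ^ (4 * t + 2) :=
        calc (N + 1) ^ (4 * t + 3) ≤ (N₀ + 1) ^ (4 * t + 3) := Nat.pow_le_pow_left h1 _
          _ ≤ q := hq1
          _ = q ^ 1 := (pow_one q).symm
          _ ≤ q ^ (4 * t + 2) := Nat.pow_le_pow_right hq0 (by omega)
      omega
    obtain ⟨P, hP, hP4, hNP, hPN⟩ := hN₀ N hNN
    have : Fact P.Prime := ⟨hP⟩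
    obtain ⟨R, hR1, hR2⟩ := oddF_floor_root (2 * t + 1) (P ^ (t + 1)) (by omega)
    have hRP : R ≤ P := by
      by_contra hcon
      push Not at hcon
      have h1 : P ^ (2 * t + 1) < R ^ (2 * t + 1) := Nat.pow_lt_pow_left hcon (by omega)
      have h2 : P ^ (t + 1) ≤ P ^ (2 * t + 1) := Nat.pow_le_pow_right hP.pos (by omega)
      omega
    have hR0 : 1 ≤ R := by
      by_contra hcon
      have h0 : R = 0 := by omega
      rw [h0, zero_add, one_pow] at hR2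
      have := Nat.one_le_pow (t + 1) P hP.pos
      omega
    have h2 : P ^ (t + 1) ≤ K * R ^ (2 * t + 1) := by
      rw [hK, ← mul_pow]
      exact hR2.le.trans (Nat.pow_le_pow_left (by omega) _)
    have hs : (Nat.sqrt P * R) ^ (4 * t + 2) ≤ q ^ (4 * t + 2) := by
      calc (Nat.sqrt P * R) ^ (4 * t + 2) = (Nat.sqrt P * Nat.sqrt P) ^ (2 * t + 1) *
            (R ^ (2 * t + 1)) ^ 2 := by ring
        _ ≤ P ^ (2 * t + 1) * (P ^ (t + 1)) ^ 2 :=
          Nat.mul_le_mul (Nat.pow_le_pow_left (Nat.sqrt_le P) _) (Nat.pow_le_pow_left hR1 _)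
        _ = P ^ (4 * t + 3) := by ring
        _ ≤ N ^ (4 * t + 3) := Nat.pow_le_pow_left hPN _
        _ ≤ q ^ (4 * t + 2) := hN1
    have hs' : Nat.sqrt P * R ≤ q := (Nat.pow_le_pow_iff_left (by omega)).1 hs
    have hPm : P ≤ m := by
      have h3 : P ^ (4 * t + 3) ≤ m ^ (4 * t + 3) :=
        calc P ^ (4 * t + 3) ≤ N ^ (4 * t + 3) := Nat.pow_le_pow_left hPN _
          _ ≤ q ^ (4 * t + 2) := hN1
          _ ≤ q ^ (4 * t + 3) := Nat.pow_le_pow_right hq0 (by omega)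
          _ ≤ m ^ (4 * t + 3) := Nat.pow_le_pow_left (by omega) _
      exact (Nat.pow_le_pow_iff_left (by omega)).1 h3
    obtain ⟨S, hS, hS1⟩ := odd_case hP4 R K m hRP hR1 h2 (by omega) hPm
    refine ⟨S, hS, ?_⟩
    have h4 : ((m : ℝ) / 10) ^ e ≤ 2 * P := by
      have h5 : ((m : ℝ) / 10) ^ e ≤ (q : ℝ) ^ e := by
        refine Real.rpow_le_rpow (by positivity) ?_ he0
        rw [div_le_iff₀ (by norm_num)]
        have : (m : ℝ) ≤ 10 * q := by exact_mod_cast hqm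
        linarith
      have h6 : (q : ℝ) ^ e = ((q : ℝ) ^ (4 * t + 2)) ^ (((4 * t + 3 : ℕ) : ℝ)⁻¹) := by
        rw [he, div_eq_mul_inv, Real.rpow_mul (by positivity), Real.rpow_natCast]
      have h7 : ((q : ℝ) ^ (4 * t + 2)) ≤ (2 * P : ℝ) ^ (4 * t + 3) := by
        have h8 : q ^ (4 * t + 2) ≤ (2 * P) ^ (4 * t + 3) :=
          hN2.le.trans (Nat.pow_le_pow_left (by omega) _)
        exact_mod_cast h8
      calc ((m : ℝ) / 10) ^ e ≤ (q : ℝ) ^ e := h5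
        _ = ((q : ℝ) ^ (4 * t + 2)) ^ (((4 * t + 3 : ℕ) : ℝ)⁻¹) := h6
        _ ≤ ((2 * P : ℝ) ^ (4 * t + 3)) ^ (((4 * t + 3 : ℕ) : ℝ)⁻¹) :=
          Real.rpow_le_rpow (by positivity) h7 (by positivity)
        _ = 2 * P := Real.pow_rpow_inv_natCast (by positivity) (by omega)
    have h9 : ((m : ℝ) / 10) ^ e = (1 / 10 : ℝ) ^ e * (m : ℝ) ^ e := by
      rw [← Real.mul_rpow (by norm_num) (by positivity)]
      congr 1
      ring
    have h10 : (P : ℝ) ≤ 12 * K * S.card := by exact_mod_cast hS1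
    have hKr : (0 : ℝ) < K := by exact_mod_cast hK0
    calc min c₁ (1 / M₀) * (m : ℝ) ^ e ≤ c₁ * (m : ℝ) ^ e :=
          mul_le_mul_of_nonneg_right (min_le_left _ _) (by positivity)
      _ = ((m : ℝ) / 10) ^ e / (24 * K) := by rw [h9, hc₁]; ring
      _ ≤ S.card := by
        rw [div_le_iff₀ (by positivity)]
        linarith

end Pool.Agent.Lib.MP_060d7c_co
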