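import Pool.Agent.Lib.MP_060d7c_co.Even
import Pool.Agent.Lib.MP_060d7c_co.FinalOdd

/-! # Choice of the parameters, even dimension -/

set_option autoImplicit false

namespace Pool.Agent.Lib.MP_060d7c_co

/-- `N₁ = ⌊(m/5)^((4t+4)/(4t+5))⌋`, `P ≤ N₁` from `exists_prime`, `K = ⌊P^(1/(4t+4))⌋`, `N = K √P`; for
small `m` a single point. -/
theorem even_final (t : ℕ) (ht : 1 ≤ t) : ∃ c : ℝ, 0 < c ∧ ∀ m : ℕ, 1 ≤ m →
    ∃ S : Finset (EuclideanSpace ℝ (Fin (2 * t + 4))), Good (2 * t + 4) m S ∧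
      c * (m : ℝ) ^ (((4 * t + 4 : ℕ) : ℝ) / (4 * t + 5 : ℕ)) ≤ S.card := by
  obtain ⟨N₀', hN₀'⟩ := exists_prime
  obtain ⟨N₀, hN₀a, hN₀b⟩ : ∃ N₀ : ℕ, N₀' ≤ N₀ ∧ 2 * (2 ^ (2 * t + 2) + 1) ^ 2 ≤ N₀ :=
    ⟨max N₀' (2 * (2 ^ (2 * t + 2) + 1) ^ 2), le_max_left _ _, le_max_right _ _⟩
  obtain ⟨e, he⟩ : ∃ e : ℝ, e = ((4 * t + 4 : ℕ) : ℝ) / (4 * t + 5 : ℕ) := ⟨_, rfl⟩
  have h43 : (0 : ℝ) < ((4 * t + 5 : ℕ) : ℝ) := by positivity
  have he0 : 0 ≤ e := by rw [he]; positivity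
  have he1 : e ≤ 1 := by
    rw [he, div_le_one h43]
    exact_mod_cast Nat.le_succ (4 * t + 4)
  rw [← he]
  obtain ⟨M₀, hM₀⟩ : ∃ M₀ : ℕ, M₀ = 5 * (N₀ + 1) ^ (4 * t + 5) := ⟨_, rfl⟩
  have hM₀5 : 5 ≤ M₀ := by
    rw [hM₀]
    exact Nat.le_mul_of_pos_right 5 (Nat.pow_pos (Nat.succ_pos N₀))
  obtain ⟨C, hC⟩ : ∃ C : ℕ, C = 2 ^ (2 * t + 4) := ⟨_, rfl⟩
  have hC0 : 0 < C := by rw [hC]; positivity
  obtain ⟨c₁, hc₁⟩ : ∃ c₁ : ℝ, c₁ = (1 / 10 : ℝ) ^ e / (24 * C) := ⟨_, rfl⟩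
  have hc₁0 : 0 < c₁ := by rw [hc₁]; positivity
  refine ⟨min c₁ (1 / M₀), lt_min hc₁0 (by positivity), fun m hm => ?_⟩
  rcases lt_or_ge m M₀ with hmM | hmM
  · obtain ⟨S, hS, hS1⟩ := oddF_one_point (2 * t + 4) m hm
    refine ⟨S, hS, ?_⟩
    rw [hS1]
    have hm1 : (1 : ℝ) ≤ m := by exact_mod_cast hm
    have h1 : (m : ℝ) ^ e ≤ m := by
      calc (m : ℝ) ^ e ≤ (m : ℝ) ^ (1 : ℝ) := Real.rpow_le_rpow_of_exponent_le hm1 he1
        _ = m := Real.rpow_one _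
    have h2 : (m : ℝ) ≤ M₀ := by exact_mod_cast hmM.le
    have hM0 : (0 : ℝ) < M₀ := by
      have : 0 < M₀ := by omega
      exact_mod_cast this
    calc min c₁ (1 / M₀) * (m : ℝ) ^ e ≤ 1 / M₀ * M₀ :=
          mul_le_mul (min_le_right _ _) (h1.trans h2) (by positivity) (by positivity)
      _ = 1 := by field_simp
      _ = ((1 : ℕ) : ℝ) := by norm_num
  · -- large `m`
    obtain ⟨q, hq⟩ : ∃ q : ℕ, q = m / 5 := ⟨_, rfl⟩
    have hq1 : (N₀ + 1) ^ (4 * t + 5) ≤ q := by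
      rw [hq, Nat.le_div_iff_mul_le (by norm_num)]
      rw [hM₀] at hmM
      linarith
    have hq0 : 1 ≤ q := le_trans (Nat.one_le_pow _ _ (Nat.succ_pos N₀)) hq1
    have hq5 : 5 * q ≤ m := by rw [hq]; exact Nat.mul_div_le m 5
    have hqm : m ≤ 10 * q := by
      have := Nat.div_add_mod m 5
      have h5 := Nat.mod_lt m (show 5 > 0 by norm_num)
      rw [← hq] at this
      omega
    obtain ⟨N, hN1, hN2⟩ := oddF_floor_root (4 * t + 5) (q ^ (4 * t + 4)) (by omega)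
    have hNN : N₀ ≤ N := by
      by_contra hcon
      have h1 : N + 1 ≤ N₀ + 1 := by omega
      have h2 : (N + 1) ^ (4 * t + 5) ≤ q ^ (4 * t + 4) :=
        calc (N + 1) ^ (4 * t + 5) ≤ (N₀ + 1) ^ (4 * t + 5) := Nat.pow_le_pow_left h1 _
          _ ≤ q := hq1
          _ = q ^ 1 := (pow_one q).symm
          _ ≤ q ^ (4 * t + 4) := Nat.pow_le_pow_right hq0 (by omega)
      omega
    obtain ⟨P, hP, hP4, hNP, hPN⟩ := hN₀' N (hN₀a.trans hNN)
    have : Fact P.Prime := ⟨hP⟩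
    obtain ⟨K, hK1, hK2⟩ := oddF_floor_root (4 * t + 4) P (by omega)
    have hK0 : 1 ≤ K := by
      by_contra hcon
      have h0 : K = 0 := by omega
      rw [h0, zero_add, one_pow] at hK2
      have := hP.two_le
      omega
    obtain ⟨s, hs⟩ : ∃ s, s = Nat.sqrt P := ⟨_, rfl⟩
    have hss : s * s ≤ P := by rw [hs]; exact Nat.sqrt_le P
    have hsl : P < (s + 1) * (s + 1) := by rw [hs]; exact Nat.lt_succ_sqrt P
    have hs1 : 2 ^ (2 * t + 2) < s := by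
      by_contra hcon
      push Not at hcon
      have h1 : (s + 1) * (s + 1) ≤ (2 ^ (2 * t + 2) + 1) ^ 2 := by
        rw [sq]
        exact Nat.mul_le_mul (by omega) (by omega)
      omega
    have hs0 : 1 ≤ s := le_trans (Nat.one_le_two_pow) hs1.le
    have hKs : K ^ (2 * t + 2) ≤ s := by
      rw [hs, Nat.le_sqrt]
      calc K ^ (2 * t + 2) * K ^ (2 * t + 2) = K ^ (4 * t + 4) := by ring
        _ ≤ P := hK1
    have hsK : s ≤ 2 ^ (2 * t + 2) * K ^ (2 * t + 2) := by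
      have h1 : s ^ 2 ≤ (2 ^ (2 * t + 2) * K ^ (2 * t + 2)) ^ 2 :=
        calc s ^ 2 = s * s := sq s
          _ ≤ P := hss
          _ ≤ (K + 1) ^ (4 * t + 4) := hK2.le
          _ ≤ (2 * K) ^ (4 * t + 4) := Nat.pow_le_pow_left (by omega) _
          _ = (2 ^ (2 * t + 2) * K ^ (2 * t + 2)) ^ 2 := by
            rw [← mul_pow, ← pow_mul]
            congr 1
            ring
      exact (Nat.pow_le_pow_iff_left (by omega)).1 h1
    have hKK : K ≤ K ^ (2 * t + 2) := by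
      calc K = K ^ 1 := (pow_one K).symm
        _ ≤ K ^ (2 * t + 2) := Nat.pow_le_pow_right hK0 (by omega)
    have hKK1 : K ^ (2 * t + 1) ≤ K ^ (2 * t + 2) := Nat.pow_le_pow_right hK0 (by omega)
    have hsP : s ≤ P := by nlinarith
    have hKP : K ≤ P := hKK.trans (hKs.trans hsP)
    have hNP' : K * s ≤ P := (Nat.mul_le_mul_right s (hKK.trans hKs)).trans hss
    have h0 : 2 * (2 * K) ^ (2 * t + 1) < P ^ t := by
      calc 2 * (2 * K) ^ (2 * t + 1) = 2 ^ (2 * t + 2) * K ^ (2 * t + 1) := by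
            rw [mul_pow]
            ring
        _ ≤ 2 ^ (2 * t + 2) * s := Nat.mul_le_mul_left _ (hKK1.trans hKs)
        _ < s * s := Nat.mul_lt_mul_of_pos_right hs1 hs0
        _ ≤ P := hss
        _ = P ^ 1 := (pow_one P).symm
        _ ≤ P ^ t := Nat.pow_le_pow_right hP.pos ht
    have h1 : K * s * K ^ (2 * t + 1) ≤ P := by
      calc K * s * K ^ (2 * t + 1) = K ^ (2 * t + 2) * s := by ring
        _ ≤ s * s := Nat.mul_le_mul_right s hKs
        _ ≤ P := hss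
    have h2 : P ≤ C * (K * s * K ^ (2 * t + 1)) := by
      calc P ≤ (s + 1) * (s + 1) := hsl.le
        _ ≤ (2 * s) * (2 * s) := Nat.mul_le_mul (by omega) (by omega)
        _ = 4 * s * s := by ring
        _ ≤ 4 * s * (2 ^ (2 * t + 2) * K ^ (2 * t + 2)) := Nat.mul_le_mul_left _ hsK
        _ = C * (K * s * K ^ (2 * t + 1)) := by
          rw [hC]
          ring
    have hKq : K * P ≤ q := by
      have h3 : (K * P) ^ (4 * t + 4) ≤ q ^ (4 * t + 4) := by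
        calc (K * P) ^ (4 * t + 4) = K ^ (4 * t + 4) * P ^ (4 * t + 4) := mul_pow _ _ _
          _ ≤ P * P ^ (4 * t + 4) := Nat.mul_le_mul_right _ hK1
          _ = P ^ (4 * t + 5) := by ring
          _ ≤ N ^ (4 * t + 5) := Nat.pow_le_pow_left hPN _
          _ ≤ q ^ (4 * t + 4) := hN1
      exact (Nat.pow_le_pow_iff_left (by omega)).1 h3
    have hsq : Nat.sqrt P * (K * s) ≤ q := by
      calc Nat.sqrt P * (K * s) = K * (s * s) := by rw [← hs]; ring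
        _ ≤ K * P := Nat.mul_le_mul_left K hss
        _ ≤ q := hKq
    obtain ⟨S, hS, hS1⟩ := even_case hP4 (K * s) K C m hKP hNP' h0 h1 h2 (by omega) (by omega)
    refine ⟨S, hS, ?_⟩
    have h4 : ((m : ℝ) / 10) ^ e ≤ 2 * P := by
      have h5 : ((m : ℝ) / 10) ^ e ≤ (q : ℝ) ^ e := by
        refine Real.rpow_le_rpow (by positivity) ?_ he0
        rw [div_le_iff₀ (by norm_num)]
        have : (m : ℝ) ≤ 10 * q := by exact_mod_cast hqm
        linarith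
      have h6 : (q : ℝ) ^ e = ((q : ℝ) ^ (4 * t + 4)) ^ (((4 * t + 5 : ℕ) : ℝ)⁻¹) := by
        rw [he, div_eq_mul_inv, Real.rpow_mul (by positivity), Real.rpow_natCast]
      have h7 : ((q : ℝ) ^ (4 * t + 4)) ≤ (2 * P : ℝ) ^ (4 * t + 5) := by
        have h8 : q ^ (4 * t + 4) ≤ (2 * P) ^ (4 * t + 5) :=
          hN2.le.trans (Nat.pow_le_pow_left (by omega) _)
        exact_mod_cast h8
      calc ((m : ℝ) / 10) ^ e ≤ (q : ℝ) ^ e := h5
        _ = ((q : ℝ) ^ (4 * t + 4)) ^ (((4 * t + 5 : ℕ) : ℝ)⁻¹) := h6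
        _ ≤ ((2 * P : ℝ) ^ (4 * t + 5)) ^ (((4 * t + 5 : ℕ) : ℝ)⁻¹) :=
          Real.rpow_le_rpow (by positivity) h7 (by positivity)
        _ = 2 * P := Real.pow_rpow_inv_natCast (by positivity) (by omega)
    have h9 : ((m : ℝ) / 10) ^ e = (1 / 10 : ℝ) ^ e * (m : ℝ) ^ e := by
      rw [← Real.mul_rpow (by norm_num) (by positivity)]
      congr 1
      ring
    have h10 : (P : ℝ) ≤ 12 * C * S.card := by exact_mod_cast hS1
    have hCr : (0 : ℝ) < C := by exact_mod_cast hC0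
    calc min c₁ (1 / M₀) * (m : ℝ) ^ e ≤ c₁ * (m : ℝ) ^ e :=
          mul_le_mul_of_nonneg_right (min_le_left _ _) (by positivity)
      _ = ((m : ℝ) / 10) ^ e / (24 * C) := by rw [h9, hc₁]; ring
      _ ≤ S.card := by
        rw [div_le_iff₀ (by positivity)]
        linarith

end Pool.Agent.Lib.MP_060d7c_co
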