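import Pool.Agent.Lib.MP_060d7c_co.Defs

/-! # Parseval for a family of vectors -/

set_option autoImplicit false

namespace Pool.Agent.Lib.MP_060d7c_co

open Finset

private theorem map_sum_prod {A M κ : Type*} [AddCommGroup A] [CommMonoid M] (ψ : AddChar A M)
    (s : Finset κ) (g : κ → A) : ψ (∑ k ∈ s, g k) = ∏ k ∈ s, ψ (g k) := by
  classical
  induction s using Finset.induction_on with
  | empty => simp
  | insert a s ha ih => rw [Finset.sum_insert ha, Finset.prod_insert ha, AddChar.map_add_eq_mul, ih]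

/-- Parseval for a family of vectors `f e ∈ F^κ`. -/
theorem parseval {P : ℕ} [Fact P.Prime] {ι κ : Type*} [Fintype κ] [DecidableEq κ] (E : Finset ι)
    (f : ι → κ → ZMod P) :
    ∑ h : κ → ZMod P, ‖∑ e ∈ E, ZMod.stdAddChar (∑ k, h k * f e k)‖ ^ 2 =
      (P : ℝ) ^ Fintype.card κ * ((E ×ˢ E).filter (fun e => f e.1 = f e.2)).card := by
  classical
  have h1 : ∀ h : κ → ZMod P,
      ((‖∑ e ∈ E, ZMod.stdAddChar (∑ k, h k * f e k)‖ : ℝ) : ℂ) ^ 2 =
        ∑ p ∈ E ×ˢ E, ∏ k, ZMod.stdAddChar (h k * (f p.1 k - f p.2 k)) := by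
    intro h
    rw [← Complex.mul_conj', map_sum, Finset.sum_mul_sum, ← Finset.sum_product']
    refine Finset.sum_congr rfl fun p _ => ?_
    rw [← AddChar.map_neg_eq_conj, ← AddChar.map_add_eq_mul, ← map_sum_prod]
    congr 1
    rw [← sub_eq_add_neg, ← Finset.sum_sub_distrib]
    exact Finset.sum_congr rfl fun k _ => by ring
  have h2 : ∀ p : ι × ι, ∑ h : κ → ZMod P, ∏ k, ZMod.stdAddChar (h k * (f p.1 k - f p.2 k)) =
      if f p.1 = f p.2 then (P : ℂ) ^ Fintype.card κ else 0 := by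
    intro p
    have h3 : ∀ k, ∑ a : ZMod P, ZMod.stdAddChar (a * (f p.1 k - f p.2 k)) =
        if f p.1 k = f p.2 k then (P : ℂ) else 0 := by
      intro k
      rw [AddChar.sum_mulShift _ (ZMod.isPrimitive_stdAddChar P), ZMod.card]
      by_cases hk : f p.1 k = f p.2 k
      · simp [hk]
      · simp [hk, sub_eq_zero]
    have h4 := Fintype.prod_sum (fun (k : κ) (a : ZMod P) =>
      (ZMod.stdAddChar (a * (f p.1 k - f p.2 k)) : ℂ))
    rw [← h4, Finset.prod_congr rfl fun k _ => h3 k]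
    by_cases hp : f p.1 = f p.2
    · simp [hp]
    · rw [if_neg hp]
      obtain ⟨k, hk⟩ := Function.ne_iff.1 hp
      exact Finset.prod_eq_zero (Finset.mem_univ k) (by simp [hk])
  have h5 : ((∑ h : κ → ZMod P, ‖∑ e ∈ E, ZMod.stdAddChar (∑ k, h k * f e k)‖ ^ 2 : ℝ) : ℂ) =
      (((P : ℝ) ^ Fintype.card κ * ((E ×ˢ E).filter (fun e => f e.1 = f e.2)).card : ℝ) : ℂ) := by
    push_cast
    rw [Finset.sum_congr rfl fun h _ => h1 h, Finset.sum_comm,
      Finset.sum_congr rfl fun p _ => h2 p, ← Finset.sum_filter, Finset.sum_const, nsmul_eq_mul,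
      mul_comm]
  exact_mod_cast h5

end Pool.Agent.Lib.MP_060d7c_co
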