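import Pool.Agent.Lib.MP_060d7c_co.CountY
import Pool.Agent.Lib.MP_060d7c_co.Pars

/-! # The averaging lemma -/

set_option autoImplicit false

namespace Pool.Agent.Lib.MP_060d7c_co

open Finset

/-- The dual form of the pair `(X, Y)`. -/
theorem dual_dot {R : Type*} [CommRing R] {t : ℕ} (c : Fin t → R) (M : Fin t → Fin t → R) (x : R)
    (α β : Fin t → R) (a : R) (g : Fin t → R) :
    a * X c x β + ∑ i, g i * Y c M x α β i =
      (a + 2 * ∑ i, g i * c i) * x + (∑ i, g i * α i +
        ∑ j, (-a * c j - ∑ i, g i * (M i j - M j i) - (∑ i, g i * c i) * c j) * β j) := by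
  obtain ⟨s, hs⟩ : ∃ s, s = ∑ i, g i * c i := ⟨_, rfl⟩
  obtain ⟨b, hb⟩ : ∃ b, b = ∑ j, c j * β j := ⟨_, rfl⟩
  have h1 : ∑ i, g i * Y c M x α β i = ∑ i, g i * α i -
      ∑ i, ∑ j, g i * (M i j - M j i) * β j + 2 * x * s - s * b := by
    have h2 : ∀ i, g i * Y c M x α β i = g i * α i - ∑ j, g i * (M i j - M j i) * β j +
        2 * x * (g i * c i) - (g i * c i) * b := fun i => by
      unfold Y
      rw [← hb]
      have h3 : ∑ j, g i * (M i j - M j i) * β j = g i * ∑ j, (M i j - M j i) * β j := by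
        rw [Finset.mul_sum]
        exact Finset.sum_congr rfl fun j _ => by ring
      rw [h3]
      ring
    rw [Finset.sum_congr rfl fun i _ => h2 i, Finset.sum_sub_distrib, Finset.sum_add_distrib,
      Finset.sum_sub_distrib, ← Finset.mul_sum, ← Finset.sum_mul, ← hs]
  have h4 : ∑ j, (-a * c j - ∑ i, g i * (M i j - M j i) - s * c j) * β j =
      -a * b - ∑ i, ∑ j, g i * (M i j - M j i) * β j - s * b := by
    have h5 : ∀ j, (-a * c j - ∑ i, g i * (M i j - M j i) - s * c j) * β j =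
        -a * (c j * β j) - ∑ i, g i * (M i j - M j i) * β j - s * (c j * β j) := fun j => by
      rw [sub_mul, sub_mul, Finset.sum_mul]
      ring
    rw [Finset.sum_congr rfl fun j _ => h5 j, Finset.sum_sub_distrib, Finset.sum_sub_distrib,
      ← Finset.mul_sum, ← Finset.mul_sum, ← hb, Finset.sum_comm]
  rw [← hs, h1, h4]
  unfold X
  rw [← hb]
  ring

/-- Sum over the fibres of a map. -/
theorem sum_fiber_le {A B : Type*} [Fintype A] [Fintype B] [DecidableEq B] (L : A → B) (F : B → ℝ)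
    (hF : ∀ b, 0 ≤ F b) (b₀ : B) (n₀ n : ℕ)
    (h0 : (univ.filter (fun a => L a = b₀)).card ≤ n₀)
    (h1 : ∀ b, b ≠ b₀ → (univ.filter (fun a => L a = b)).card ≤ n) :
    ∑ a, F (L a) ≤ n₀ * F b₀ + n * ∑ b, F b := by
  have h2 : ∑ a, F (L a) = ∑ b, ((univ.filter (fun a => L a = b)).card : ℝ) * F b := by
    rw [← Finset.sum_fiberwise (s := univ) (g := L) (f := fun a => F (L a))]
    refine Finset.sum_congr rfl fun b _ => ?_
    rw [Finset.sum_congr rfl (g := fun _ => F b), Finset.sum_const, nsmul_eq_mul]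
    intro a ha
    rw [(mem_filter.1 ha).2]
  have h3 : ∀ b, ((univ.filter (fun a => L a = b)).card : ℝ) * F b ≤
      (if b = b₀ then (n₀ : ℝ) * F b else 0) + n * F b := by
    intro b
    by_cases hb : b = b₀
    · rw [if_pos hb]
      have h4 : ((univ.filter (fun a => L a = b)).card : ℝ) ≤ n₀ := by
        rw [hb]
        exact_mod_cast h0
      have h5 : 0 ≤ (n : ℝ) * F b := mul_nonneg (Nat.cast_nonneg _) (hF b)
      have h6 := mul_le_mul_of_nonneg_right h4 (hF b)
      linarith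
    · rw [if_neg hb, zero_add]
      have h4 : ((univ.filter (fun a => L a = b)).card : ℝ) ≤ n := by exact_mod_cast h1 b hb
      exact mul_le_mul_of_nonneg_right h4 (hF b)
  rw [h2]
  refine (Finset.sum_le_sum fun b _ => h3 b).trans ?_
  rw [Finset.sum_add_distrib, ← Finset.mul_sum, Finset.sum_ite_eq' univ b₀, if_pos (mem_univ _)]

/-- The averaging lemma: some `(c, M)` has few pairs of `E` with the same value of `(X, Y)`. -/
theorem exists_cM {P t : ℕ} [Fact P.Prime] (hP : P ≠ 2) {ι : Type*} (E : Finset ι)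
    (x : ι → ZMod P) (α β : ι → Fin t → ZMod P)
    (inj : ∀ e ∈ E, ∀ e' ∈ E, x e = x e' → α e = α e' → β e = β e' → e = e') :
    ∃ (c : Fin t → ZMod P) (M : Fin t → Fin t → ZMod P),
      P ^ (t + 1) * ((E ×ˢ E).filter (fun e => X c (x e.1) (β e.1) = X c (x e.2) (β e.2) ∧
        ∀ i, Y c M (x e.1) (α e.1) (β e.1) i = Y c M (x e.2) (α e.2) (β e.2) i)).card ≤
      E.card ^ 2 + 2 * P ^ (t + 1) * E.card := by
  classical
  by_contra hcon
  push Not at hcon
  have hP0 : 0 < P := (Fact.out : P.Prime).pos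
  have h2ne : (2 : ZMod P) ≠ 0 := by
    intro h
    have h3 : ((2 : ℕ) : ZMod P) = 0 := by exact_mod_cast h
    rw [ZMod.natCast_eq_zero_iff] at h3
    exact hP ((Nat.prime_dvd_prime_iff_eq Fact.out Nat.prime_two).1 h3)
  obtain ⟨g2, hg2⟩ : ∃ g2 : ι → Option (Fin t ⊕ Fin t) → ZMod P, ∀ e, g2 e none = x e ∧
      (∀ i, g2 e (some (Sum.inl i)) = α e i) ∧ ∀ i, g2 e (some (Sum.inr i)) = β e i :=
    ⟨fun e o => o.elim (x e) (fun k => Sum.elim (α e) (β e) k), fun e =>
      ⟨rfl, fun _ => rfl, fun _ => rfl⟩⟩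
  obtain ⟨g1, hg1⟩ : ∃ g1 : (Fin t → ZMod P) → (Fin t → Fin t → ZMod P) → ι → Option (Fin t) →
      ZMod P, ∀ c M e, g1 c M e none = X c (x e) (β e) ∧
      ∀ i, g1 c M e (some i) = Y c M (x e) (α e) (β e) i :=
    ⟨fun c M e o => o.elim (X c (x e) (β e)) (fun k => Y c M (x e) (α e) (β e) k), fun c M e =>
      ⟨rfl, fun _ => rfl⟩⟩
  obtain ⟨L, hL⟩ : ∃ L : ((Fin t → ZMod P) × (Fin t → Fin t → ZMod P)) ×
      (Option (Fin t) → ZMod P) → Option (Fin t ⊕ Fin t) → ZMod P, ∀ p,
      L p none = p.2 none + 2 * ∑ i, p.2 (some i) * p.1.1 i ∧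
      (∀ i, L p (some (Sum.inl i)) = p.2 (some i)) ∧
      ∀ j, L p (some (Sum.inr j)) = -p.2 none * p.1.1 j -
        ∑ i, p.2 (some i) * (p.1.2 i j - p.1.2 j i) - (∑ i, p.2 (some i) * p.1.1 i) * p.1.1 j :=
    ⟨fun p o => o.elim (p.2 none + 2 * ∑ i, p.2 (some i) * p.1.1 i)
      (fun k => Sum.elim (fun i => p.2 (some i)) (fun j => -p.2 none * p.1.1 j -
        ∑ i, p.2 (some i) * (p.1.2 i j - p.1.2 j i) - (∑ i, p.2 (some i) * p.1.1 i) * p.1.1 j) k),
      fun p => ⟨rfl, fun _ => rfl, fun _ => rfl⟩⟩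
  have hdot : ∀ p e, ∑ k, p.2 k * g1 p.1.1 p.1.2 e k = ∑ k, L p k * g2 e k := by
    intro p e
    rw [Fintype.sum_option, Fintype.sum_option, Fintype.sum_sum_type, (hg1 p.1.1 p.1.2 e).1,
      (hL p).1, (hg2 e).1]
    have h1 : ∀ i, p.2 (some i) * g1 p.1.1 p.1.2 e (some i) =
        p.2 (some i) * Y p.1.1 p.1.2 (x e) (α e) (β e) i := fun i => by rw [(hg1 _ _ e).2]
    have h2 : ∀ i, L p (some (Sum.inl i)) * g2 e (some (Sum.inl i)) = p.2 (some i) * α e i :=
      fun i => by rw [(hL p).2.1, (hg2 e).2.1]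
    have h3 : ∀ j, L p (some (Sum.inr j)) * g2 e (some (Sum.inr j)) = (-p.2 none * p.1.1 j -
        ∑ i, p.2 (some i) * (p.1.2 i j - p.1.2 j i) - (∑ i, p.2 (some i) * p.1.1 i) * p.1.1 j) *
        β e j := fun j => by rw [(hL p).2.2, (hg2 e).2.2]
    rw [Finset.sum_congr rfl fun i _ => h1 i, Finset.sum_congr rfl fun i _ => h2 i,
      Finset.sum_congr rfl fun i _ => h3 i]
    exact dual_dot _ _ _ _ _ _ _
  obtain ⟨F, hF⟩ : ∃ F : (Option (Fin t ⊕ Fin t) → ZMod P) → ℝ, ∀ h,
      F h = ‖∑ e ∈ E, ZMod.stdAddChar (∑ k, h k * g2 e k)‖ ^ 2 := ⟨_, fun _ => rfl⟩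
  have hF0 : ∀ h, 0 ≤ F h := fun h => by rw [hF]; positivity
  -- the fibres of `L`
  have hfib0 : (univ.filter (fun p => L p = 0)).card ≤ P ^ (t + t * t) := by
    have h1 : Set.InjOn (fun p : ((Fin t → ZMod P) × (Fin t → Fin t → ZMod P)) ×
        (Option (Fin t) → ZMod P) => p.1) (univ.filter (fun p => L p = 0)) := by
      intro p hp p' hp' h
      have hz : ∀ q, q ∈ (univ.filter (fun p => L p = 0)) → q.2 = 0 := by
        intro q hq
        have h2 := (mem_filter.1 hq).2
        have h3 : ∀ i, q.2 (some i) = 0 := fun i => by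
          rw [← (hL q).2.1 i, h2]
          rfl
        have h4 : q.2 none = 0 := by
          have h5 := (hL q).1
          rw [h2, Finset.sum_eq_zero fun i _ => by rw [h3 i, zero_mul], mul_zero, add_zero] at h5
          exact h5.symm
        funext k
        cases k with
        | none => exact h4
        | some i => exact h3 i
      exact Prod.ext h ((hz p hp).trans (hz p' hp').symm)
    refine (Finset.card_le_card_of_injOn _ (fun _ _ => mem_coe.2 (mem_univ _)) h1).trans
      (le_of_eq ?_)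
    rw [card_univ, Fintype.card_prod, Fintype.card_fun, Fintype.card_fun, Fintype.card_fun,
      ZMod.card, Fintype.card_fin, ← pow_mul, ← pow_add]
  have hfib : ∀ h, h ≠ 0 → (univ.filter (fun p => L p = h)).card ≤ 2 * P ^ (t * t) := by
    intro h hh
    have hne : ¬ (h none / 2 = 0 ∧ (fun i => h (some (Sum.inr i))) = 0 ∧
        (fun i => h (some (Sum.inl i))) = 0) := by
      rintro ⟨h1, h2, h3⟩
      apply hh
      funext k
      rcases k with _ | i | i
      · rw [div_eq_zero_iff] at h1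
        rcases h1 with h1 | h1
        · exact h1
        · exact absurd h1 h2ne
      · exact congrFun h3 i
      · exact congrFun h2 i
    refine le_trans ?_ (count_Y hP (h none / 2) (fun i => h (some (Sum.inr i)))
      (fun i => h (some (Sum.inl i))) hne)
    refine Finset.card_le_card_of_injOn (fun p => p.1) ?_ ?_
    · intro p hp
      have h2 := (mem_filter.1 (mem_coe.1 hp)).2
      refine mem_coe.2 (mem_filter.2 ⟨mem_univ _, fun j => ?_⟩)
      have h3 : ∀ i, p.2 (some i) = h (some (Sum.inl i)) := fun i => by rw [← (hL p).2.1 i, h2]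
      have h4 := (hL p).1
      have h5 := (hL p).2.2 j
      rw [h2] at h4 h5
      simp only [h3] at h4 h5
      obtain ⟨s, hs⟩ : ∃ s, s = ∑ i, h (some (Sum.inl i)) * p.1.1 i := ⟨_, rfl⟩
      rw [← hs] at h4 h5
      have h6 : p.2 none = h none - 2 * s := by rw [h4]; ring
      rw [h6] at h5
      have h7 : ∑ i, p.1.1 i * h (some (Sum.inl i)) = s := by
        rw [hs]
        exact Finset.sum_congr rfl fun i _ => by ring
      have h8 : ∑ i, (p.1.2 j i - p.1.2 i j) * h (some (Sum.inl i)) =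
          -∑ i, h (some (Sum.inl i)) * (p.1.2 i j - p.1.2 j i) := by
        rw [← Finset.sum_neg_distrib]
        exact Finset.sum_congr rfl fun i _ => by ring
      unfold Y
      rw [h7, h8]
      have h9 : 2 * (h none / 2) = h none := by field_simp
      rw [h9]
      linear_combination h5
    · intro p hp p' hp' he
      have h2 := (mem_filter.1 (mem_coe.1 hp)).2
      have h2' := (mem_filter.1 (mem_coe.1 hp')).2
      have he' : p.1 = p'.1 := he
      have h3 : ∀ i, p.2 (some i) = p'.2 (some i) := fun i => by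
        rw [← (hL p).2.1 i, ← (hL p').2.1 i, h2, h2']
      have h4 : p.2 none = p'.2 none := by
        have h5 := (hL p).1
        have h6 := (hL p').1
        rw [h2] at h5
        rw [h2', ← he', Finset.sum_congr rfl (g := fun i => p.2 (some i) * p.1.1 i)
          (fun i _ => by rw [h3 i])] at h6
        have h7 := h5.symm.trans h6
        exact add_right_cancel h7
      refine Prod.ext he' (funext fun k => ?_)
      cases k with
      | none => exact h4
      | some i => exact h3 i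
  -- the two evaluations
  have hup := sum_fiber_le L F hF0 0 _ _ hfib0 hfib
  have hFz : F 0 = (E.card : ℝ) ^ 2 := by
    rw [hF]
    have h1 : ∀ e ∈ E, ZMod.stdAddChar (∑ k, (0 : Option (Fin t ⊕ Fin t) → ZMod P) k * g2 e k) =
        (1 : ℂ) := fun e _ => by simp
    rw [Finset.sum_congr rfl h1, Finset.sum_const, nsmul_eq_mul, mul_one, Complex.norm_natCast]
  have hFs : ∑ h, F h = (P : ℝ) ^ (2 * t + 1) * E.card := by
    rw [Finset.sum_congr rfl fun h _ => hF h, parseval E g2]
    have h1 : Fintype.card (Option (Fin t ⊕ Fin t)) = 2 * t + 1 := by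
      rw [Fintype.card_option, Fintype.card_sum, Fintype.card_fin]
      ring
    have h2 : ((E ×ˢ E).filter (fun e => g2 e.1 = g2 e.2)).card = E.card := by
      refine Finset.card_bij' (fun e _ => e.1) (fun e _ => (e, e)) ?_ ?_ ?_ ?_
      · intro e he
        exact (mem_product.1 (mem_filter.1 he).1).1
      · intro e he
        exact mem_filter.2 ⟨mem_product.2 ⟨he, he⟩, rfl⟩
      · intro e he
        obtain ⟨h3, h4⟩ := mem_filter.1 he
        obtain ⟨h5, h6⟩ := mem_product.1 h3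
        refine Prod.ext rfl (inj _ h5 _ h6 ?_ ?_ ?_)
        · rw [← (hg2 e.1).1, ← (hg2 e.2).1, h4]
        · funext i
          rw [← (hg2 e.1).2.1, ← (hg2 e.2).2.1, h4]
        · funext i
          rw [← (hg2 e.1).2.2, ← (hg2 e.2).2.2, h4]
      · intro e _
        rfl
    rw [h1, h2]
  have hlow : ∀ q : (Fin t → ZMod P) × (Fin t → Fin t → ZMod P),
      ((E.card ^ 2 + 2 * P ^ (t + 1) * E.card : ℕ) : ℝ) <
        ∑ h' : Option (Fin t) → ZMod P, F (L (q, h')) := by
    intro q
    have h1 : ∑ h' : Option (Fin t) → ZMod P, F (L (q, h')) = (P : ℝ) ^ (t + 1) *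
        ((E ×ˢ E).filter (fun e => g1 q.1 q.2 e.1 = g1 q.1 q.2 e.2)).card := by
      have h2 := parseval (P := P) (κ := Option (Fin t)) E (g1 q.1 q.2)
      rw [Fintype.card_option, Fintype.card_fin] at h2
      rw [← h2]
      refine Finset.sum_congr rfl fun h' _ => ?_
      rw [hF]
      congr 2
      refine Finset.sum_congr rfl fun e _ => ?_
      rw [← hdot (q, h') e]
    have h3 : ((E ×ˢ E).filter (fun e => g1 q.1 q.2 e.1 = g1 q.1 q.2 e.2)).card =
        ((E ×ˢ E).filter (fun e => X q.1 (x e.1) (β e.1) = X q.1 (x e.2) (β e.2) ∧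
        ∀ i, Y q.1 q.2 (x e.1) (α e.1) (β e.1) i =
          Y q.1 q.2 (x e.2) (α e.2) (β e.2) i)).card := by
      congr 1
      refine Finset.filter_congr fun e _ => ?_
      rw [← (hg1 q.1 q.2 e.1).1, ← (hg1 q.1 q.2 e.2).1]
      constructor
      · intro h4
        exact ⟨by rw [h4], fun i => by rw [← (hg1 q.1 q.2 e.1).2, ← (hg1 q.1 q.2 e.2).2, h4]⟩
      · rintro ⟨h4, h5⟩
        funext k
        cases k with
        | none => exact h4
        | some i => rw [(hg1 q.1 q.2 e.1).2, (hg1 q.1 q.2 e.2).2, h5 i]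
    rw [h1, h3]
    exact_mod_cast hcon q.1 q.2
  have hsum : ∑ p, F (L p) = ∑ q : (Fin t → ZMod P) × (Fin t → Fin t → ZMod P),
      ∑ h' : Option (Fin t) → ZMod P, F (L (q, h')) := Fintype.sum_prod_type _
  have hlt : ∑ q : (Fin t → ZMod P) × (Fin t → Fin t → ZMod P),
      ((E.card ^ 2 + 2 * P ^ (t + 1) * E.card : ℕ) : ℝ) < ∑ p, F (L p) := by
    rw [hsum]
    exact Finset.sum_lt_sum_of_nonempty univ_nonempty fun q _ => hlow q
  rw [Finset.sum_const, card_univ, nsmul_eq_mul, Fintype.card_prod, Fintype.card_fun,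
    Fintype.card_fun, Fintype.card_fun, ZMod.card, Fintype.card_fin, ← pow_mul, ← pow_add] at hlt
  rw [hFz, hFs] at hup
  have h1 := hlt.trans_le hup
  push_cast at h1
  have h2 : (P : ℝ) ^ (t + t * t) * ((E.card : ℝ) ^ 2 + 2 * (P : ℝ) ^ (t + 1) * E.card) =
      (P : ℝ) ^ (t + t * t) * (E.card : ℝ) ^ 2 +
        2 * (P : ℝ) ^ (t * t) * ((P : ℝ) ^ (2 * t + 1) * E.card) := by
    ring
  rw [h2] at h1
  exact lt_irrefl _ h1

end Pool.Agent.Lib.MP_060d7c_co
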