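import Pool.Agent.Lib.MP_060d7c_co.Defs

/-! # The one-block construction (all `d ≥ 2`) -/

set_option autoImplicit false

namespace Pool.Agent.Lib.MP_060d7c_co.GL

lemma digits_sum (b c : ℕ) (d : ℕ) : ∑ i ∈ Finset.range d, b ^ i * (c / b ^ i % b) = c % b ^ d := by
  induction d with
  | zero => simp [Nat.mod_one]
  | succ d ih => rw [Finset.sum_range_succ, ih, Nat.mod_pow_succ]

/-- number whose digits are used -/
def cc (d b p t : ℕ) : ℕ := (t ^ 2 + ∑ i ∈ Finset.range d, b ^ i * (t * b ^ i / p)) % p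

/-- The points. -/
def X (d b p t : ℕ) (i : ℕ) : ℕ := t * b ^ i % p + p * (cc d b p t / b ^ i % b)

lemma X_lt (d b p t i : ℕ) (hb : 0 < b) (hp : 0 < p) : X d b p t i < p * b := by
  unfold X
  have h1 : t * b ^ i % p < p := Nat.mod_lt _ hp
  have h2 : cc d b p t / b ^ i % b < b := Nat.mod_lt _ hb
  have h3 : p * (cc d b p t / b ^ i % b + 1) ≤ p * b := Nat.mul_le_mul_left p h2
  rw [mul_add, mul_one] at h3
  omega

/-- the lift -/
def ze (d b p t : ℕ) (i : ℕ) : ℤ := (cc d b p t / b ^ i % b : ℕ) - (t * b ^ i / p : ℕ)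

lemma X_eq (d b p t i : ℕ) : (X d b p t i : ℤ) = t * (b : ℤ) ^ i + p * ze d b p t i := by
  unfold X ze
  have h : (t * b ^ i : ℕ) = t * b ^ i % p + p * (t * b ^ i / p) := (Nat.mod_add_div _ _).symm
  have h' : ((t * b ^ i : ℕ) : ℤ) = ((t * b ^ i % p : ℕ) : ℤ) + p * ((t * b ^ i / p : ℕ) : ℤ) := by
    exact_mod_cast h
  push_cast at h' ⊢
  linarith

lemma ze_sum (d b p t : ℕ) (hp : 0 < p) (hb : p ≤ b ^ d) :
    ∃ k : ℤ, ∑ i ∈ Finset.range d, (b : ℤ) ^ i * ze d b p t i = t ^ 2 + p * k := by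
  have h1 := digits_sum b (cc d b p t) d
  have hc : cc d b p t < p := Nat.mod_lt _ hp
  rw [Nat.mod_eq_of_lt (hc.trans_le hb)] at h1
  have h2 : t ^ 2 + ∑ i ∈ Finset.range d, b ^ i * (t * b ^ i / p) =
      cc d b p t + p * ((t ^ 2 + ∑ i ∈ Finset.range d, b ^ i * (t * b ^ i / p)) / p) :=
    (Nat.mod_add_div _ _).symm
  refine ⟨-(((t ^ 2 + ∑ i ∈ Finset.range d, b ^ i * (t * b ^ i / p)) / p : ℕ) : ℤ), ?_⟩
  have h1' : (∑ i ∈ Finset.range d, (b : ℤ) ^ i * ((cc d b p t / b ^ i % b : ℕ) : ℤ)) =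
      (cc d b p t : ℤ) := by exact_mod_cast h1
  have h2' : (t : ℤ) ^ 2 + ∑ i ∈ Finset.range d, (b : ℤ) ^ i * ((t * b ^ i / p : ℕ) : ℤ) =
      cc d b p t + p * (((t ^ 2 + ∑ i ∈ Finset.range d, b ^ i * (t * b ^ i / p)) / p : ℕ) : ℤ) := by
    exact_mod_cast h2
  unfold ze
  simp only [mul_sub, Finset.sum_sub_distrib]
  rw [h1']
  linarith

/-- squared distance -/
def D (d b p s t : ℕ) : ℤ := ∑ i ∈ Finset.range d, ((X d b p s i : ℤ) - X d b p t i) ^ 2

/-- squared norm of the direction -/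
def A (d b : ℕ) : ℤ := ∑ i ∈ Finset.range d, ((b : ℤ) ^ i) ^ 2

lemma D_eq (d b p s t : ℕ) (hp : 0 < p) (hb : p ≤ b ^ d) :
    ∃ k : ℤ, D d b p s t = ((s : ℤ) - t) ^ 2 * (A d b + 2 * p * (s + t)) + p ^ 2 * k := by
  obtain ⟨k1, h1⟩ := ze_sum d b p s hp hb
  obtain ⟨k2, h2⟩ := ze_sum d b p t hp hb
  refine ⟨2 * (s - t) * (k1 - k2) + ∑ i ∈ Finset.range d, (ze d b p s i - ze d b p t i) ^ 2, ?_⟩
  have e : ∀ i ∈ Finset.range d, ((X d b p s i : ℤ) - X d b p t i) ^ 2 =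
      ((s : ℤ) - t) ^ 2 * ((b : ℤ) ^ i) ^ 2 + 2 * p * (s - t) * ((b : ℤ) ^ i * ze d b p s i) -
        2 * p * (s - t) * ((b : ℤ) ^ i * ze d b p t i) +
        p ^ 2 * (ze d b p s i - ze d b p t i) ^ 2 := by
    intro i _
    rw [X_eq, X_eq]
    ring
  unfold D A
  rw [Finset.sum_congr rfl e, Finset.sum_add_distrib, Finset.sum_sub_distrib,
    Finset.sum_add_distrib, ← Finset.mul_sum, ← Finset.mul_sum, ← Finset.mul_sum,
    ← Finset.mul_sum, h1, h2]
  ring

lemma main_inj (d b p : ℕ) (hp : p.Prime) (hp2 : 2 < p) (hb : p ≤ b ^ d)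
    (hA : ¬ (p : ℤ) ∣ A d b) (s t s' t' : ℕ) (hs : 2 * s < p) (hs' : 2 * s' < p) (hst : t < s)
    (hst' : t' < s') (h : D d b p s t = D d b p s' t') : s = s' ∧ t = t' := by
  have hpp : Prime (p : ℤ) := Nat.prime_iff_prime_int.mp hp
  obtain ⟨k, hk⟩ := D_eq d b p s t hp.pos hb
  obtain ⟨k', hk'⟩ := D_eq d b p s' t' hp.pos hb
  have h1 : (p : ℤ) ∣ A d b * (((s : ℤ) - t - (s' - t')) * ((s : ℤ) - t + (s' - t'))) := by
    refine ⟨-(((s : ℤ) - t) ^ 2 * (2 * (s + t)) + p * k -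
      (((s' : ℤ) - t') ^ 2 * (2 * (s' + t')) + p * k')), ?_⟩
    have := hk.symm.trans (h.trans hk')
    linear_combination this
  have hlt : ∀ z : ℤ, (p : ℤ) ∣ z → |z| < p → z = 0 := fun z hz hz' =>
    Int.eq_zero_of_abs_lt_dvd hz hz'
  have hp0 : (0 : ℤ) < p := by exact_mod_cast hp.pos
  have q1 : (t : ℤ) < s := by exact_mod_cast hst
  have q2 : (t' : ℤ) < s' := by exact_mod_cast hst'
  have q3 : 2 * (s : ℤ) < p := by exact_mod_cast hs
  have q4 : 2 * (s' : ℤ) < p := by exact_mod_cast hs'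
  have q5 : (0 : ℤ) ≤ t := by positivity
  have q6 : (0 : ℤ) ≤ t' := by positivity
  have hu : (s : ℤ) - t = s' - t' := by
    rcases hpp.dvd_or_dvd h1 with h2 | h2
    · exact absurd h2 hA
    · rcases hpp.dvd_or_dvd h2 with h3 | h3
      · have := hlt _ h3 (by rw [abs_lt]; constructor <;> linarith)
        linarith
      · have := hlt _ h3 (by rw [abs_lt]; constructor <;> linarith)
        linarith
  have h2 : (p : ℤ) ∣ 2 * (((s : ℤ) - t) ^ 2 * ((s : ℤ) + t - (s' + t'))) := by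
    refine ⟨k' - k, ?_⟩
    have h3 := hk.symm.trans (h.trans hk')
    rw [← hu] at h3
    have h4 : (p : ℤ) * (2 * (((s : ℤ) - t) ^ 2 * ((s : ℤ) + t - (s' + t')))) =
        p * (p * (k' - k)) := by linear_combination h3
    exact mul_left_cancel₀ hp0.ne' h4
  have hv : (s : ℤ) + t = s' + t' := by
    rcases hpp.dvd_or_dvd h2 with h3 | h3
    · have := Int.le_of_dvd (by norm_num) h3
      have : (2 : ℤ) < p := by exact_mod_cast hp2
      linarith
    · rcases hpp.dvd_or_dvd h3 with h4 | h4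
      · have h5 := hpp.dvd_of_dvd_pow h4
        have := hlt _ h5 (by rw [abs_lt]; constructor <;> linarith)
        linarith
      · have := hlt _ h4 (by rw [abs_lt]; constructor <;> linarith)
        linarith
  constructor
  · have : (s : ℤ) = s' := by linarith
    exact_mod_cast this
  · have : (t : ℤ) = t' := by linarith
    exact_mod_cast this

lemma D_ne_zero (d b p : ℕ) (hp : p.Prime) (hb : p ≤ b ^ d)
    (hA : ¬ (p : ℤ) ∣ A d b) (s t : ℕ) (hs : 2 * s < p) (hst : t < s) : D d b p s t ≠ 0 := by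
  intro h
  have hpp : Prime (p : ℤ) := Nat.prime_iff_prime_int.mp hp
  obtain ⟨k, hk⟩ := D_eq d b p s t hp.pos hb
  have h1 : (p : ℤ) ∣ A d b * ((s : ℤ) - t) ^ 2 := by
    refine ⟨-(((s : ℤ) - t) ^ 2 * (2 * (s + t)) + p * k), ?_⟩
    rw [h] at hk
    linear_combination -hk
  rcases hpp.dvd_or_dvd h1 with h2 | h2
  · exact hA h2
  · have h3 := hpp.dvd_of_dvd_pow h2
    have q1 : (t : ℤ) < s := by exact_mod_cast hst
    have q3 : 2 * (s : ℤ) < p := by exact_mod_cast hs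
    have q5 : (0 : ℤ) ≤ t := by positivity
    have := Int.le_of_dvd (by linarith) h3
    linarith

lemma A_mul (d b : ℕ) : A d b * ((b : ℤ) ^ 2 - 1) = ((b : ℤ) ^ d - 1) * ((b : ℤ) ^ d + 1) := by
  unfold A
  induction d with
  | zero => simp
  | succ d ih =>
    rw [Finset.sum_range_succ, add_mul, ih]
    ring

lemma not_dvd_A (d B p : ℕ) (hd : 2 ≤ d) (hB : 4 ≤ B) (hBe : Even B) (hp : p.Prime)
    (h1 : B ^ d < 2 * p) (h2 : p ≤ B ^ d) : ¬ (p : ℤ) ∣ A d B := by
  intro h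
  have hpp : Prime (p : ℤ) := Nat.prime_iff_prime_int.mp hp
  have h3 : (p : ℤ) ∣ ((B : ℤ) ^ d - 1) * ((B : ℤ) ^ d + 1) := by
    rw [← A_mul]
    exact Dvd.dvd.mul_right h _
  have hBd : B * B ≤ B ^ d := by
    calc B * B = B ^ 2 := by ring
      _ ≤ B ^ d := Nat.pow_le_pow_right (by omega) hd
  have hBd' : 16 ≤ B ^ d := by nlinarith
  rcases hpp.dvd_or_dvd h3 with h4 | h4
  · -- p divides B^d - 1
    have h5 : p ∣ B ^ d - 1 := by
      have e : ((B ^ d - 1 : ℕ) : ℤ) = (B : ℤ) ^ d - 1 := by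
        rw [Nat.cast_sub (by omega)]
        push_cast
        ring
      rw [← e] at h4
      exact_mod_cast h4
    obtain ⟨j, hj⟩ := h5
    have hj1 : j = 1 := by
      have hj0 : 0 < j := by
        rcases Nat.eq_zero_or_pos j with h0 | h0
        · rw [h0] at hj; omega
        · exact h0
      by_contra hne
      have : 2 ≤ j := by omega
      have : p * 2 ≤ p * j := Nat.mul_le_mul_left p this
      omega
    rw [hj1, mul_one] at hj
    have h6 : B - 1 ∣ B ^ d - 1 := by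
      simpa using Nat.sub_dvd_pow_sub_pow B 1 d
    rw [hj] at h6
    rcases (Nat.dvd_prime hp).1 h6 with h7 | h7
    · omega
    · have : B < B ^ d := by nlinarith
      omega
  · have h5 : p ∣ B ^ d + 1 := by
      have e : ((B ^ d + 1 : ℕ) : ℤ) = (B : ℤ) ^ d + 1 := by push_cast; ring
      rw [← e] at h4
      exact_mod_cast h4
    obtain ⟨j, hj⟩ := h5
    have hodd : ¬ Even (B ^ d + 1) := by
      rw [Nat.not_even_iff_odd]
      exact (hBe.pow_of_ne_zero (by omega)).add_one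
    have hj2 : j = 2 := by
      by_contra hne
      rcases Nat.lt_or_ge j 2 with h0 | h0
      · have : p * j ≤ p * 1 := Nat.mul_le_mul_left p (by omega)
        omega
      · have : 3 ≤ j := by omega
        have : p * 3 ≤ p * j := Nat.mul_le_mul_left p this
        omega
    apply hodd
    rw [hj, hj2]
    exact even_two.mul_left p

/-- the point as a vector -/
noncomputable def V (d b p t : ℕ) : EuclideanSpace ℝ (Fin d) :=
  WithLp.toLp 2 (fun i : Fin d => ((X d b p t i : ℝ) + 1))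

lemma dist_V (d b p s t : ℕ) : dist (V d b p s) (V d b p t) = √(D d b p s t : ℝ) := by
  rw [EuclideanSpace.dist_eq]
  congr 1
  unfold D V
  push_cast
  rw [← Fin.sum_univ_eq_sum_range (fun i => ((X d b p s i : ℝ) - X d b p t i) ^ 2) d]
  refine Finset.sum_congr rfl (fun i _ => ?_)
  rw [Real.dist_eq, sq_abs]
  simp

lemma D_symm (d b p s t : ℕ) : D d b p s t = D d b p t s := by
  unfold D
  refine Finset.sum_congr rfl (fun i _ => by ring)

lemma D_nonneg (d b p s t : ℕ) : 0 ≤ D d b p s t := Finset.sum_nonneg (fun _ _ => sq_nonneg _)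

lemma V_inj (d b p : ℕ) (hp : p.Prime) (hb : p ≤ b ^ d)
    (hA : ¬ (p : ℤ) ∣ A d b) (s t : ℕ) (hs : 2 * s < p) (ht : 2 * t < p)
    (h : V d b p s = V d b p t) : s = t := by
  have h1 : dist (V d b p s) (V d b p t) = 0 := by rw [h, dist_self]
  rw [dist_V, Real.sqrt_eq_zero (by exact_mod_cast D_nonneg d b p s t)] at h1
  have h2 : D d b p s t = 0 := by exact_mod_cast h1
  rcases lt_trichotomy s t with h3 | h3 | h3
  · rw [D_symm] at h2
    exact absurd h2 (D_ne_zero d b p hp hb hA t s ht h3)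
  · exact h3
  · exact absurd h2 (D_ne_zero d b p hp hb hA s t hs h3)

lemma construct (d b p m : ℕ) (hp : p.Prime) (hp2 : 2 < p) (hb : p ≤ b ^ d) (hb0 : 0 < b)
    (hA : ¬ (p : ℤ) ∣ A d b) (hm : p * b ≤ m) :
    ∃ S : Finset (EuclideanSpace ℝ (Fin d)), Good d m S ∧ p ≤ 2 * S.card := by
  classical
  set R := Finset.range ((p + 1) / 2) with hR
  have hRlt : ∀ t ∈ R, 2 * t < p := by
    intro t ht
    rw [hR, Finset.mem_range] at ht
    omega
  refine ⟨R.image (V d b p), And.intro ?_ ?_, ?_⟩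
  · intro x hx
    rw [Finset.mem_image] at hx
    obtain ⟨t, _, rfl⟩ := hx
    intro i
    refine ⟨X d b p t i + 1, by omega, ?_, ?_⟩
    · have := X_lt d b p t i hb0 hp.pos
      omega
    · simp [V]
  · intro x hx y hy z hz w hw hxy hzw hd
    rw [Finset.mem_image] at hx hy hz hw
    obtain ⟨s, hs, rfl⟩ := hx
    obtain ⟨t, ht, rfl⟩ := hy
    obtain ⟨s', hs', rfl⟩ := hz
    obtain ⟨t', ht', rfl⟩ := hw
    have hs := hRlt s hs
    have ht := hRlt t ht
    have hs' := hRlt s' hs'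
    have ht' := hRlt t' ht'
    have hst : s ≠ t := fun h => hxy (by rw [h])
    have hst' : s' ≠ t' := fun h => hzw (by rw [h])
    rw [dist_V, dist_V, Real.sqrt_inj (by exact_mod_cast D_nonneg _ _ _ _ _)
      (by exact_mod_cast D_nonneg _ _ _ _ _)] at hd
    have hd : D d b p s t = D d b p s' t' := by exact_mod_cast hd
    rcases lt_or_gt_of_ne hst with h1 | h1 <;> rcases lt_or_gt_of_ne hst' with h2 | h2
    · rw [D_symm, D_symm d b p s' t'] at hd
      obtain ⟨e1, e2⟩ := main_inj d b p hp hp2 hb hA t s t' s' ht ht' h1 h2 hd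
      left; rw [e1, e2]; exact ⟨rfl, rfl⟩
    · rw [D_symm] at hd
      obtain ⟨e1, e2⟩ := main_inj d b p hp hp2 hb hA t s s' t' ht hs' h1 h2 hd
      right; rw [e1, e2]; exact ⟨rfl, rfl⟩
    · rw [D_symm d b p s' t'] at hd
      obtain ⟨e1, e2⟩ := main_inj d b p hp hp2 hb hA s t t' s' hs ht' h1 h2 hd
      right; rw [e1, e2]; exact ⟨rfl, rfl⟩
    · obtain ⟨e1, e2⟩ := main_inj d b p hp hp2 hb hA s t s' t' hs hs' h1 h2 hd
      left; rw [e1, e2]; exact ⟨rfl, rfl⟩
  · rw [Finset.card_image_of_injOn]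
    · rw [hR, Finset.card_range]
      omega
    · intro s hs t ht h
      exact V_inj d b p hp hb hA s t (hRlt s hs) (hRlt t ht) h

lemma single (d m : ℕ) (hm : 1 ≤ m) :
    ∃ S : Finset (EuclideanSpace ℝ (Fin d)), Good d m S ∧
      S.card = 1 := by
  refine ⟨{WithLp.toLp 2 (fun _ => 1)}, And.intro ?_ ?_, ?_⟩
  · intro x hx
    rw [Finset.mem_singleton] at hx
    subst hx
    intro i
    exact ⟨1, le_refl _, hm, by simp⟩
  · intro p hp q hq r _ s _ hpq
    rw [Finset.mem_singleton] at hp hq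
    exact absurd (hp.trans hq.symm) hpq
  · simp

/-- For every `d ≥ 2` and `m ≥ 1` the grid `{1, ..., m}^d`, with `n = m ^ d` points, contains a
subset without repeated distances of size at least `n ^ (1 / (d + 1)) / 4 ^ (d + 1)`. -/
theorem lower (d : ℕ) (hd : 2 ≤ d) (m : ℕ) (hm : 1 ≤ m) :
    ∃ S : Finset (EuclideanSpace ℝ (Fin d)), Good d m S ∧
      ((m ^ d : ℕ) : ℝ) ^ ((1 : ℝ) / ((d : ℝ) + 1)) / 4 ^ (d + 1) ≤ (S.card : ℝ) := by
  set x : ℝ := (m : ℝ) ^ ((1 : ℝ) / ((d : ℝ) + 1)) with hx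
  have hm1 : (1 : ℝ) ≤ m := by exact_mod_cast hm
  have hm0 : (0 : ℝ) ≤ m := by positivity
  have hd1 : (0 : ℝ) < (d : ℝ) + 1 := by positivity
  have hx0 : 0 ≤ x := by positivity
  have hxd : ((m ^ d : ℕ) : ℝ) ^ ((1 : ℝ) / ((d : ℝ) + 1)) = x ^ d := by
    rw [hx]
    push_cast
    rw [← Real.rpow_natCast, ← Real.rpow_natCast, ← Real.rpow_mul hm0, ← Real.rpow_mul hm0,
      mul_comm]
  have hxd1 : x ^ (d + 1) = m := by
    rw [hx, ← Real.rpow_natCast, ← Real.rpow_mul hm0]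
    push_cast
    rw [one_div, inv_mul_cancel₀ hd1.ne', Real.rpow_one]
  rw [hxd]
  rcases lt_or_ge x 4 with hx4 | hx4
  · obtain ⟨S, h1, h3⟩ := single d m hm
    refine ⟨S, h1, ?_⟩
    rw [h3, div_le_iff₀ (by positivity)]
    have h4 : x ^ d ≤ 4 ^ d := pow_le_pow_left₀ hx0 hx4.le d
    have h5 : (4 : ℝ) ^ d ≤ 4 ^ (d + 1) := pow_le_pow_right₀ (by norm_num) (by omega)
    push_cast
    linarith
  · set B := 2 * ⌊x / 2⌋₊ with hB
    have hfl : ((⌊x / 2⌋₊ : ℕ) : ℝ) ≤ x / 2 := Nat.floor_le (by positivity)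
    have hfl2 : x / 2 < (⌊x / 2⌋₊ : ℕ) + 1 := Nat.lt_floor_add_one _
    have hBx : (B : ℝ) ≤ x := by rw [hB]; push_cast; linarith
    have hBx2 : x / 2 ≤ (B : ℝ) := by rw [hB]; push_cast; linarith
    have hB4 : 4 ≤ B := by
      have : 2 ≤ ⌊x / 2⌋₊ := Nat.le_floor (by push_cast; linarith)
      omega
    have hBe : Even B := even_two_mul _
    have hBd16 : 16 ≤ B ^ d := by
      calc 16 = 4 ^ 2 := by norm_num
        _ ≤ B ^ 2 := Nat.pow_le_pow_left hB4 2
        _ ≤ B ^ d := Nat.pow_le_pow_right (by omega) hd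
    have hBde : 2 * (B ^ d / 2) = B ^ d := by
      have : Even (B ^ d) := hBe.pow_of_ne_zero (by omega)
      exact Nat.two_mul_div_two_of_even this
    obtain ⟨p, hp, hp1, hp2⟩ := Nat.exists_prime_lt_and_le_two_mul (B ^ d / 2) (by omega)
    rw [hBde] at hp2
    have hp3 : B ^ d < 2 * p := by omega
    have hA := not_dvd_A d B p hd hB4 hBe hp hp3 hp2
    have hpm : p * B ≤ m := by
      have h1 : p * B ≤ B ^ (d + 1) := by
        rw [pow_succ]
        exact Nat.mul_le_mul_right B hp2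
      have h2 : ((B ^ (d + 1) : ℕ) : ℝ) ≤ m := by
        push_cast
        rw [← hxd1]
        exact pow_le_pow_left₀ (by positivity) hBx _
      have h3 : B ^ (d + 1) ≤ m := by exact_mod_cast h2
      exact h1.trans h3
    obtain ⟨S, h1, h3⟩ := construct d B p m hp (by omega) hp2 (by omega) hA hpm
    refine ⟨S, h1, ?_⟩
    have h4 : B ^ d ≤ 4 * S.card := by omega
    have h5 : (B : ℝ) ^ d ≤ 4 * S.card := by exact_mod_cast h4
    have h6 : (x / 2) ^ d ≤ (B : ℝ) ^ d := pow_le_pow_left₀ (by positivity) hBx2 d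
    rw [div_le_iff₀ (by positivity)]
    have h7 : x ^ d = 2 ^ d * (x / 2) ^ d := by
      rw [← mul_pow]; congr 1; ring
    have h8 : (2 : ℝ) ^ d ≤ 4 ^ d := pow_le_pow_left₀ (by norm_num) (by norm_num) d
    rw [h7]
    calc (2 : ℝ) ^ d * (x / 2) ^ d ≤ 4 ^ d * (4 * S.card) :=
          mul_le_mul h8 (h6.trans h5) (by positivity) (by positivity)
      _ = S.card * 4 ^ (d + 1) := by ring

end Pool.Agent.Lib.MP_060d7c_co.GL
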