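import Pool.Agent.Lib.MP_060d7c_co.Block
import Pool.Agent.Lib.MP_060d7c_co.Sqrt

/-! # Odd dimension `d = 2t + 3` -/

set_option autoImplicit false

namespace Pool.Agent.Lib.MP_060d7c_co

open Finset

/-- The second block of `(x, u, v)`. -/
def oddZ {R t : ℕ} (a b : ℤ) (e : Fin R × (Fin t → Fin R) × (Fin t → Fin R)) :
    Fin 2 ⊕ (Fin 2 × Fin t) → ℤ
  | Sum.inl 0 => a * (e.1 : ℕ)
  | Sum.inl 1 => b * (e.1 : ℕ)
  | Sum.inr (0, j) => a * (e.2.1 j : ℕ) - b * (e.2.2 j : ℕ)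
  | Sum.inr (1, j) => a * (e.2.2 j : ℕ) + b * (e.2.1 j : ℕ)

theorem oddZ_sum {R t : ℕ} (a b : ℤ) (e e' : Fin R × (Fin t → Fin R) × (Fin t → Fin R)) :
    ∑ k, (oddZ a b e k - oddZ a b e' k) ^ 2 = (a ^ 2 + b ^ 2) *
      ((((e.1 : ℕ) : ℤ) - ((e'.1 : ℕ) : ℤ)) ^ 2 +
        ∑ j, ((((e.2.1 j : ℕ) : ℤ) - ((e'.2.1 j : ℕ) : ℤ)) ^ 2 +
          (((e.2.2 j : ℕ) : ℤ) - ((e'.2.2 j : ℕ) : ℤ)) ^ 2)) := by
  rw [Fintype.sum_sum_type, Fin.sum_univ_two, Fintype.sum_prod_type, Fin.sum_univ_two,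
    ← Finset.sum_add_distrib, mul_add, Finset.mul_sum]
  simp only [oddZ]
  congr 1
  · ring
  · refine Finset.sum_congr rfl fun j _ => ?_
    ring

theorem cast_inj_of_lt {P r s : ℕ} (hr : r < P) (hs : s < P) (h : (r : ZMod P) = s) : r = s := by
  have := (ZMod.natCast_eq_natCast_iff' r s P).1 h
  rwa [Nat.mod_eq_of_lt hr, Nat.mod_eq_of_lt hs] at this

/-- `P = a² + b²`; index set `(x, u, v) ∈ [0, R) × [0, R)^t × [0, R)^t`, second block
`(a x, b x), (a u_j - b v_j, a v_j + b u_j)` in `Z^(2t+2)`, `α = u + iv`, `β = u - iv` with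
`i² = -1` in `ZMod P`; then `block` with `κ = Fin 2 ⊕ (Fin 2 × Fin t)` or similar. -/
theorem odd_case {P t : ℕ} [Fact P.Prime] (hP : P % 4 = 1) (R K m : ℕ) (hRP : R ≤ P)
    (h1 : R ^ (2 * t + 1) ≤ P ^ (t + 1)) (h2 : P ^ (t + 1) ≤ K * R ^ (2 * t + 1))
    (hm : 4 * (Nat.sqrt P * R) + 1 ≤ m) (hPm : P ≤ m) :
    ∃ S : Finset (EuclideanSpace ℝ (Fin (2 * t + 3))), Good (2 * t + 3) m S ∧
      P ≤ 12 * K * S.card := by
  obtain ⟨a, b, hab, ha0, ha, hb0, hb⟩ := two_squares hP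
  obtain ⟨i, hi⟩ : IsSquare (-1 : ZMod P) := ZMod.exists_sq_eq_neg_one_iff.2 (by omega)
  have hP2 : P ≠ 2 := by
    rintro rfl
    omega
  have h20 : (2 : ZMod P) ≠ 0 := by
    have h3 : ((2 : ℕ) : ZMod P) ≠ 0 := by
      rw [Ne, ZMod.natCast_eq_zero_iff]
      intro h4
      exact hP2 ((Nat.prime_dvd_prime_iff_eq Fact.out Nat.prime_two).1 h4)
    exact_mod_cast h3
  have hi0 : i ≠ 0 := by
    rintro rfl
    rw [mul_zero] at hi
    exact one_ne_zero (neg_eq_zero.1 hi)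
  have hcard : (univ : Finset (Fin R × (Fin t → Fin R) × (Fin t → Fin R))).card =
      R ^ (2 * t + 1) := by
    rw [card_univ, Fintype.card_prod, Fintype.card_prod, Fintype.card_fun, Fintype.card_fin,
      Fintype.card_fin]
    ring
  have hsq : (Nat.sqrt P : ℤ) * R = ((Nat.sqrt P * R : ℕ) : ℤ) := by push_cast; ring
  have hbd : ∀ c : ℤ, 0 ≤ c → c ≤ Nat.sqrt P → ∀ r : Fin R,
      0 ≤ c * ((r : ℕ) : ℤ) ∧ c * ((r : ℕ) : ℤ) ≤ ((Nat.sqrt P * R : ℕ) : ℤ) := by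
    intro c hc0 hc r
    have hr : ((r : ℕ) : ℤ) ≤ R := by exact_mod_cast r.2.le
    have hr0 : (0 : ℤ) ≤ ((r : ℕ) : ℤ) := Int.natCast_nonneg _
    refine ⟨mul_nonneg hc0 hr0, ?_⟩
    rw [← hsq]
    exact mul_le_mul hc hr hr0 (Int.natCast_nonneg _)
  refine block hP2 (κ := Fin 2 ⊕ (Fin 2 × Fin t)) univ (fun e => ((e.1 : ℕ) : ZMod P))
    (fun e j => ((e.2.1 j : ℕ) : ZMod P) + i * ((e.2.2 j : ℕ) : ZMod P))
    (fun e j => ((e.2.1 j : ℕ) : ZMod P) - i * ((e.2.2 j : ℕ) : ZMod P))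
    ?_ (oddZ a b) (2 * (Nat.sqrt P * R)) ?_ ?_ K (by rw [hcard]; exact h1)
    (by rw [hcard]; exact h2) (2 * t + 3) m ?_ (by omega) hPm
  · rintro ⟨x, u, v⟩ _ ⟨x', u', v'⟩ _ hx hα hβ
    have hx' : x = x' := Fin.ext (cast_inj_of_lt (x.2.trans_le hRP) (x'.2.trans_le hRP) hx)
    have hu : u = u' := by
      funext j
      have h3 := congrFun hα j
      have h4 := congrFun hβ j
      have h5 : (2 : ZMod P) * (((u j : ℕ) : ZMod P) - ((u' j : ℕ) : ZMod P)) = 0 := by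
        simp only at h3 h4
        linear_combination h3 + h4
      exact Fin.ext (cast_inj_of_lt ((u j).2.trans_le hRP) ((u' j).2.trans_le hRP)
        (sub_eq_zero.1 ((mul_eq_zero.1 h5).resolve_left h20)))
    have hv : v = v' := by
      funext j
      have h3 := congrFun hα j
      have h4 := congrFun hβ j
      have h5 : ((2 : ZMod P) * i) * (((v j : ℕ) : ZMod P) - ((v' j : ℕ) : ZMod P)) = 0 := by
        simp only at h3 h4
        linear_combination h3 - h4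
      exact Fin.ext (cast_inj_of_lt ((v j).2.trans_le hRP) ((v' j).2.trans_le hRP)
        (sub_eq_zero.1 ((mul_eq_zero.1 h5).resolve_left (mul_ne_zero h20 hi0))))
    rw [hx', hu, hv]
  · rintro ⟨x, u, v⟩ _ k
    rw [abs_le]
    push_cast
    match k with
    | Sum.inl 0 =>
      obtain ⟨h3, h4⟩ := hbd a ha0 ha x
      push_cast at h4
      simp only [oddZ]
      constructor <;> linarith
    | Sum.inl 1 =>
      obtain ⟨h3, h4⟩ := hbd b hb0 hb x
      push_cast at h4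
      simp only [oddZ]
      constructor <;> linarith
    | Sum.inr (0, j) =>
      obtain ⟨h3, h4⟩ := hbd a ha0 ha (u j)
      obtain ⟨h5, h6⟩ := hbd b hb0 hb (v j)
      push_cast at h4 h6
      simp only [oddZ]
      constructor <;> linarith
    | Sum.inr (1, j) =>
      obtain ⟨h3, h4⟩ := hbd a ha0 ha (v j)
      obtain ⟨h5, h6⟩ := hbd b hb0 hb (u j)
      push_cast at h4 h6
      simp only [oddZ]
      constructor <;> linarith
  · rintro e _ e' _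
    refine ⟨_, by rw [oddZ_sum, hab], ?_⟩
    unfold Q
    push_cast
    congr 1
    refine Finset.sum_congr rfl fun j _ => ?_
    simp only [Pi.sub_apply]
    linear_combination -(((e.2.2 j : ℕ) : ZMod P) - ((e'.2.2 j : ℕ) : ZMod P)) ^ 2 * hi
  · simp only [Fintype.card_sum, Fintype.card_prod, Fintype.card_fin]
    ring

end Pool.Agent.Lib.MP_060d7c_co
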