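import Pool.Agent.Lib.MP_060d7c_co.Four

/-! # Selection of the points of the second block -/

set_option autoImplicit false

namespace Pool.Agent.Lib.MP_060d7c_co

open Finset

theorem exists_ge_avg {γ : Type*} [Fintype γ] [Nonempty γ] (g : γ → ℕ) :
    ∃ y, ∑ z, g z ≤ Fintype.card γ * g y := by
  by_contra h
  push Not at h
  have h1 := Finset.sum_lt_sum_of_nonempty (s := univ) univ_nonempty (fun y _ => h y)
  rw [← Finset.mul_sum, Finset.sum_const, card_univ, smul_eq_mul] at h1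
  exact lt_irrefl _ h1

/-- Cauchy-Schwarz: the number of values of `f` on `E`. -/
theorem card_image_ge {ι γ : Type*} [DecidableEq γ] (E : Finset ι) (f : ι → γ) :
    E.card ^ 2 ≤ (E.image f).card * ((E ×ˢ E).filter (fun e => f e.1 = f e.2)).card := by
  have h1 := Finset.card_eq_sum_card_image f E
  have h2 : ((E ×ˢ E).filter (fun e => f e.1 = f e.2)).card =
      ∑ b ∈ E.image f, (E.filter (fun e => f e = b)).card ^ 2 := by
    rw [Finset.card_eq_sum_card_fiberwise (f := fun e : ι × ι => f e.1) (t := E.image f)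
      (fun e he => by
        exact mem_coe.2 (mem_image_of_mem f (mem_product.1 (mem_filter.1 he).1).1))]
    refine Finset.sum_congr rfl fun b _ => ?_
    rw [sq, ← Finset.card_product]
    congr 1
    ext e
    simp only [mem_filter, mem_product]
    constructor
    · rintro ⟨⟨⟨h3, h4⟩, h5⟩, h6⟩
      exact ⟨⟨h3, h6⟩, h4, h5 ▸ h6⟩
    · rintro ⟨⟨h3, h6⟩, h4, h5⟩
      exact ⟨⟨⟨h3, h4⟩, h6.trans h5.symm⟩, h6⟩
  rw [h2]
  calc E.card ^ 2 = (∑ b ∈ E.image f, (E.filter (fun e => f e = b)).card) ^ 2 := by rw [← h1]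
    _ ≤ _ := sq_sum_le_card_mul_sum_sq

/-- `exists_cM`, Cauchy-Schwarz (`(X, Y)` takes at least `|E|/3` values), pigeonhole over `Y`
(`P^t` values), then a shift `h` with many `s < P/4` for which `s² + h` is a value of `X`. -/
theorem select {P t : ℕ} [Fact P.Prime] (hP : P ≠ 2) {ι : Type} (E : Finset ι)
    (x : ι → ZMod P) (α β : ι → Fin t → ZMod P)
    (inj : ∀ e ∈ E, ∀ e' ∈ E, x e = x e' → α e = α e' → β e = β e' → e = e')
    (K : ℕ) (hE1 : E.card ≤ P ^ (t + 1)) (hE2 : P ^ (t + 1) ≤ K * E.card) :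
    ∃ (T : Finset ℕ) (w : ℕ → ι), (∀ s ∈ T, w s ∈ E ∧ 4 * s < P) ∧ P ≤ 12 * K * T.card ∧
      ∀ s ∈ T, ∀ s' ∈ T, Q (x (w s) - x (w s')) (α (w s) - α (w s')) (β (w s) - β (w s')) =
        ((s : ZMod P) ^ 2 - (s' : ZMod P) ^ 2) ^ 2 := by
  classical
  have hP0 : 0 < P := (Fact.out : P.Prime).pos
  have hPt : 0 < P ^ t := Nat.pow_pos hP0
  have hPt1 : 0 < P ^ (t + 1) := Nat.pow_pos hP0
  have hE0 : 0 < E.card := by
    rcases Nat.eq_zero_or_pos E.card with h | h
    · rw [h, mul_zero] at hE2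
      omega
    · exact h
  obtain ⟨c, M, hcM⟩ := exists_cM hP E x α β inj
  obtain ⟨f, hf⟩ : ∃ f : ι → ZMod P × (Fin t → ZMod P), ∀ e,
      f e = (X c (x e) (β e), fun i => Y c M (x e) (α e) (β e) i) := ⟨_, fun _ => rfl⟩
  have hcoll : ((E ×ˢ E).filter (fun e => X c (x e.1) (β e.1) = X c (x e.2) (β e.2) ∧
        ∀ i, Y c M (x e.1) (α e.1) (β e.1) i = Y c M (x e.2) (α e.2) (β e.2) i)).card =
      ((E ×ˢ E).filter (fun e => f e.1 = f e.2)).card := by
    congr 1
    refine Finset.filter_congr fun e _ => ?_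
    rw [hf, hf, Prod.mk.injEq, funext_iff]
  rw [hcoll] at hcM
  obtain ⟨n, hn⟩ : ∃ n, n = ((E ×ˢ E).filter (fun e => f e.1 = f e.2)).card := ⟨_, rfl⟩
  rw [← hn] at hcM
  have hn3 : n ≤ 3 * E.card := by
    have h1 : P ^ (t + 1) * n ≤ P ^ (t + 1) * (3 * E.card) := by
      calc P ^ (t + 1) * n ≤ E.card ^ 2 + 2 * P ^ (t + 1) * E.card := hcM
        _ ≤ P ^ (t + 1) * E.card + 2 * P ^ (t + 1) * E.card := by
          rw [sq]
          exact Nat.add_le_add_right (Nat.mul_le_mul_right _ hE1) _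
        _ = P ^ (t + 1) * (3 * E.card) := by ring
    exact Nat.le_of_mul_le_mul_left h1 hPt1
  have him : E.card ≤ 3 * (E.image f).card := by
    have h1 := card_image_ge E f
    rw [← hn] at h1
    have h2 : E.card * E.card ≤ E.card * (3 * (E.image f).card) := by
      calc E.card * E.card = E.card ^ 2 := by ring
        _ ≤ (E.image f).card * n := h1
        _ ≤ (E.image f).card * (3 * E.card) := Nat.mul_le_mul_left _ hn3
        _ = E.card * (3 * (E.image f).card) := by ring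
    exact Nat.le_of_mul_le_mul_left h2 hE0
  -- the values of `X` for a fixed value of `Y`
  obtain ⟨H, hH⟩ : ∃ H : (Fin t → ZMod P) → Finset (ZMod P), ∀ y,
      H y = univ.filter (fun l => ∃ e ∈ E, f e = (l, y)) := ⟨_, fun _ => rfl⟩
  have hsum : (E.image f).card = ∑ y, (H y).card := by
    rw [Finset.card_eq_sum_card_fiberwise (f := Prod.snd) (t := univ)
      (fun _ _ => mem_coe.2 (mem_univ _))]
    refine Finset.sum_congr rfl fun y _ => ?_
    refine Finset.card_bij' (fun p _ => p.1) (fun l _ => (l, y)) ?_ ?_ ?_ ?_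
    · rintro ⟨l, y'⟩ hp
      simp only [mem_filter, mem_image] at hp
      obtain ⟨⟨e, he, h1⟩, h2⟩ := hp
      rw [hH]
      simp only [mem_filter, mem_univ, true_and]
      exact ⟨e, he, by rw [h1, h2]⟩
    · intro l hl
      rw [hH] at hl
      simp only [mem_filter, mem_univ, true_and] at hl
      obtain ⟨e, he, h1⟩ := hl
      exact mem_filter.2 ⟨mem_image.2 ⟨e, he, h1⟩, rfl⟩
    · rintro ⟨l, y'⟩ hp
      simp only [mem_filter, mem_image] at hp
      rw [hp.2]
    · intro l _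
      rfl
  obtain ⟨y, hy⟩ := exists_ge_avg (fun y => (H y).card)
  rw [← hsum] at hy
  have hcardF : Fintype.card (Fin t → ZMod P) = P ^ t := by
    rw [Fintype.card_fun, ZMod.card, Fintype.card_fin]
  rw [hcardF] at hy
  have hH3 : P ≤ 3 * K * (H y).card := by
    have h1 : P ^ t * P ≤ P ^ t * (3 * K * (H y).card) := by
      calc P ^ t * P = P ^ (t + 1) := by ring
        _ ≤ K * E.card := hE2
        _ ≤ K * (3 * (P ^ t * (H y).card)) :=
          Nat.mul_le_mul_left _ (him.trans (Nat.mul_le_mul_left _ hy))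
        _ = P ^ t * (3 * K * (H y).card) := by ring
    exact Nat.le_of_mul_le_mul_left h1 hPt
  -- the shift
  obtain ⟨A, hA⟩ : ∃ A : Finset ℕ, A = range ((P + 3) / 4) := ⟨_, rfl⟩
  have hA4 : P ≤ 4 * A.card := by
    rw [hA, card_range]
    omega
  obtain ⟨T, hT⟩ : ∃ T : ZMod P → Finset ℕ, ∀ h,
      T h = A.filter (fun s : ℕ => (s : ZMod P) ^ 2 + h ∈ H y) := ⟨_, fun _ => rfl⟩
  have hsumT : ∑ h, (T h).card = A.card * (H y).card := by
    have h1 : ∀ h, (T h).card = ∑ s ∈ A, if (s : ZMod P) ^ 2 + h ∈ H y then 1 else 0 := fun h => by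
      rw [hT, Finset.card_filter]
    rw [Finset.sum_congr rfl fun h _ => h1 h, Finset.sum_comm]
    have h2 : ∀ s ∈ A, (∑ h : ZMod P, if (s : ZMod P) ^ 2 + h ∈ H y then 1 else 0) =
        (H y).card := fun s _ => by
      rw [← Finset.card_filter]
      refine Finset.card_bij' (fun h _ => (s : ZMod P) ^ 2 + h) (fun l _ => l - (s : ZMod P) ^ 2)
        ?_ ?_ ?_ ?_
      · intro h hh
        simpa using hh
      · intro l hl
        simp only [mem_filter, mem_univ, true_and]
        rwa [add_sub_cancel]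
      · intro h _
        ring
      · intro l _
        ring
    rw [Finset.sum_congr rfl h2, Finset.sum_const, smul_eq_mul]
  obtain ⟨h, hh⟩ := exists_ge_avg (fun h => (T h).card)
  rw [hsumT, ZMod.card] at hh
  have hT4 : (H y).card ≤ 4 * (T h).card := by
    have h1 : P * (H y).card ≤ P * (4 * (T h).card) := by
      calc P * (H y).card ≤ 4 * A.card * (H y).card := Nat.mul_le_mul_right _ hA4
        _ = 4 * (A.card * (H y).card) := by ring
        _ ≤ 4 * (P * (T h).card) := Nat.mul_le_mul_left _ hh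
        _ = P * (4 * (T h).card) := by ring
    exact Nat.le_of_mul_le_mul_left h1 hP0
  have hex : ∀ s ∈ T h, ∃ e ∈ E, f e = ((s : ZMod P) ^ 2 + h, y) := by
    intro s hs
    rw [hT, mem_filter, hH, mem_filter] at hs
    exact hs.2.2
  obtain ⟨e₀, he₀⟩ := Finset.card_pos.1 hE0
  obtain ⟨w, hw⟩ : ∃ w : ℕ → ι, ∀ s ∈ T h, w s ∈ E ∧ f (w s) = ((s : ZMod P) ^ 2 + h, y) := by
    refine ⟨fun s => if hs : s ∈ T h then (hex s hs).choose else e₀, fun s hs => ?_⟩
    simp only [dif_pos hs]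
    exact (hex s hs).choose_spec
  refine ⟨T h, w, fun s hs => ⟨(hw s hs).1, ?_⟩, ?_, fun s hs s' hs' => ?_⟩
  · rw [hT, mem_filter, hA, mem_range] at hs
    omega
  · calc P ≤ 3 * K * (H y).card := hH3
      _ ≤ 3 * K * (4 * (T h).card) := Nat.mul_le_mul_left _ hT4
      _ = 12 * K * (T h).card := by ring
  · have h1 := (hw s hs).2
    have h2 := (hw s' hs').2
    rw [hf, Prod.mk.injEq, funext_iff] at h1 h2
    rw [Q_eq c M, X_sub, h1.1, h2.1]
    have h3 : ∑ i, Y c M (x (w s) - x (w s')) (α (w s) - α (w s')) (β (w s) - β (w s')) i *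
        (β (w s) - β (w s')) i = 0 := by
      refine Finset.sum_eq_zero fun i _ => ?_
      rw [Y_sub, h1.2 i, h2.2 i, sub_self, zero_mul]
    rw [h3]
    ring

end Pool.Agent.Lib.MP_060d7c_co
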